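import Pool.Agent.Helper89.PL.Calc

/-! Polynomial partitioning, part 11: the lemma PL in the exact calculus, final form. -/

namespace Pool.Agent.Helper89.PL

open Finset MvPolynomial Filter Topology
open Pool.Agent.Helper69.RK (pr res mass CH st_E1 st_E2 st_E3 st_E4)
open Pool.Agent.Helper31.EC
open Pool.Agent.Helper31.EC.Sp (VV io Bdd)
open Pool.Agent.Helper89.LS (ptv)

noncomputable section

theorem ulog_le {u : ℝ} (h0 : 0 < u) : u * Real.logb 2 (1 / u) ≤ 2 := by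
  have h1 := Real.log_le_sub_one_of_pos (one_div_pos.2 h0)
  have h2 : u * Real.log (1 / u) ≤ 1 := by
    have h3 := mul_le_mul_of_nonneg_left h1 h0.le
    have h4 : u * (1 / u - 1) = 1 - u := by field_simp
    linarith
  have h3 : (1 / 2 : ℝ) < Real.log 2 := by linarith [Real.log_two_gt_d9]
  have h4 : u * Real.logb 2 (1 / u) = (u * Real.log (1 / u)) / Real.log 2 := by
    unfold Real.logb
    ring
  rw [h4, div_le_iff₀ (by linarith)]
  linarith

theorem log_div_tendsto (S : Sp) : Tendsto (fun k => Real.logb 2 ((S.F k).n + 1) / (S.F k).n) UF (𝓝 0) := by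
  have h1 : Tendsto (fun y : ℝ => Real.log y / y) atTop (𝓝 0) := by
    have h := Real.isLittleO_log_id_atTop.tendsto_div_nhds_zero
    exact h
  have h2 : Tendsto (fun k => (S.F k).n + 1) UF atTop := tendsto_atTop_add_const_right _ _ S.lim
  have h3 := (h1.comp h2).const_mul (2 / Real.log 2)
  rw [mul_zero] at h3
  refine squeeze_zero' ?_ ?_ h3
  · refine Eventually.of_forall fun k => ?_
    have := (S.F k).pos
    exact div_nonneg (Real.logb_nonneg (by norm_num) (by linarith)) this.le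
  · filter_upwards [S.lim.eventually (eventually_ge_atTop (1 : ℝ))] with k hk
    have hn := (S.F k).pos
    have hl2 : 0 < Real.log 2 := Real.log_pos (by norm_num)
    have h4 : 0 ≤ Real.log ((S.F k).n + 1) := Real.log_nonneg (by linarith)
    show Real.logb 2 ((S.F k).n + 1) / (S.F k).n ≤ 2 / Real.log 2 * (Real.log ((S.F k).n + 1) / ((S.F k).n + 1))
    unfold Real.logb
    have h5 : Real.log ((S.F k).n + 1) / Real.log 2 / (S.F k).n =
        1 / Real.log 2 * (Real.log ((S.F k).n + 1) / (S.F k).n) := by ring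
    have h6 : 2 / Real.log 2 * (Real.log ((S.F k).n + 1) / ((S.F k).n + 1)) =
        1 / Real.log 2 * (Real.log ((S.F k).n + 1) * 2 / ((S.F k).n + 1)) := by ring
    rw [h5, h6]
    refine mul_le_mul_of_nonneg_left ?_ (by positivity)
    rw [div_le_div_iff₀ hn (by linarith)]
    nlinarith

theorem sub_logb (S : Sp) {K : ℕ → ℝ} (hK : S.Sub K) (h1 : ∀ k, 1 ≤ K k) (c : ℝ) (hc : 1 ≤ c) :
    Tendsto (fun k => Real.logb 2 (c * K k) / (S.F k).n) UF (𝓝 0) := by
  have h2 := ((S.Sub_const (by linarith : (0 : ℝ) ≤ c)).mul hK).2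
  refine squeeze_zero' (Eventually.of_forall fun k => ?_) (Eventually.of_forall fun k => ?_) h2
  · have := h1 k
    exact div_nonneg (Real.logb_nonneg (by norm_num) (by nlinarith)) (S.F k).pos.le
  · have := h1 k
    exact div_le_div_of_nonneg_right (Real.logb_le_logb_of_le (by norm_num) (by positivity) (by linarith)) (S.F k).pos.le

/-- (PL) polynomial partitioning in the exact calculus. For a system whose heights are full at the levels up to `w`:
a label `V` of the points which is also a function of the line and of the window of length `2 ^ (-w n)`; on the event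
`U` it has entropy at least `(m + 1 - η) w`, and off the event `U` the point is at distance `O(2 ^ (-n))` from the zero
set of a nonzero polynomial `q` of degree at most `D`, which is a function of the label and of the base -/
theorem pl_calc (m : ℕ) (η : ℝ) (hη : 0 < η) : ∃ r D : ℕ, ∀ (S : Sp) (a x : S.VV m) (t : S.VV 1) (w : ℝ), 0 < w →
    w ≤ 1 → h (t.dg w) (a.dg 1 ⊔ x.dg 1) = w →
    ∃ (V : ∀ k, (S.F k).Ω → List (Fin r → SignType)) (q : ∀ k, (S.F k).Ω → MvPolynomial (Fin (m + 1)) ℝ)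
      (U : ∀ k, (S.F k).Ω → Prop) (K : ℕ → ℝ) (K' : ℝ), S.Sub K ∧ Bdd V ∧
      io V ≤ t.dg 1 ⊔ (ptv a x t).dg 1 ∧ io V ≤ a.dg 1 ⊔ x.dg 1 ⊔ t.dg w ∧
      (∀ᶠ k in UF, ∀ ω, q k ω ≠ 0 ∧ (q k ω).totalDegree ≤ D) ∧
      (∀ᶠ k in UF, ∀ ω ω', (S.F k).Z ω ω' → V k ω = V k ω' → q k ω = q k ω' ∧ (U k ω ↔ U k ω')) ∧
      (∀ᶠ k in UF, ∀ ω, (S.F k).μ ω ≠ 0 → ¬ U k ω → ∃ y : Fin (m + 1) → ℝ, |y 0 - t.v k ω 0| ≤ K k * S.dl 1 k ∧
        (∀ i : Fin m, |y i.succ - (ptv a x t).v k ω i| ≤ K k * S.dl 1 k) ∧ eval y (q k ω) = 0) ∧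
      ∀ᶠ k in UF, mass (res (S.F k).μ (U k)) * (((m : ℝ) + 1 - η) * w * (S.F k).n) - K' ≤
        CH (res (S.F k).μ (U k)) (V k) (Quotient.mk (S.F k).Z) := by
  classical
  set η' : ℝ := min η 1 / 2 with hη'
  have hη'0 : 0 < η' := by rw [hη']; have := lt_min hη one_pos; linarith
  have hη'1 : η' ≤ 1 / 2 := by rw [hη']; linarith [min_le_right η 1]
  have hη'2 : 2 * η' ≤ η := by rw [hη']; linarith [min_le_left η 1]
  obtain ⟨r, D, hr, hD, hfin⟩ := pl_fin m η' hη'0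
  refine ⟨r, r * D, ?_⟩
  intro S a x t w hw0 hw1 hht
  have hm0 : (0 : ℝ) ≤ m := Nat.cast_nonneg m
  -- parameters
  set θ : ℝ := η' * w / (2 * (m + 1)) with hθ
  have hθ0 : 0 < θ := by rw [hθ]; positivity
  have hθw : θ ≤ w / 4 := by
    rw [hθ, div_le_div_iff₀ (by positivity) (by norm_num)]
    nlinarith [mul_pos hη'0 hw0]
  set A : ℝ := (r : ℝ) * D + 1 with hA
  have hrD : (1 : ℝ) ≤ (r : ℝ) * D := by
    have h1 : 1 ≤ r * D := Nat.mul_pos hr hD
    exact_mod_cast h1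
  have hA2 : 2 ≤ A := by rw [hA]; linarith
  have hA0 : 0 < A := by linarith
  set lam : ℝ := Real.logb 2 A with hlam
  have hlam1 : 1 ≤ lam := by
    rw [hlam, Real.le_logb_iff_rpow_le (by norm_num) hA0]
    simpa using hA2
  have hAlam : A = 2 ^ lam := by rw [hlam, Real.rpow_logb (by norm_num) (by norm_num) hA0]
  set L : ℕ → ℕ := fun k => ⌊(w - θ) * (S.F k).n / lam⌋₊ with hL
  have hL1 : ∀ k, lam * (L k : ℝ) ≤ (w - θ) * (S.F k).n := by
    intro k
    have hn := (S.F k).pos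
    have h1 := Nat.floor_le (a := (w - θ) * (S.F k).n / lam) (by
      have : 0 ≤ w - θ := by linarith
      positivity)
    rw [le_div_iff₀ (by linarith)] at h1
    linarith
  have hL2 : ∀ k, (w - θ) * (S.F k).n - lam ≤ lam * (L k : ℝ) := by
    intro k
    have h1 := Nat.lt_floor_add_one ((w - θ) * (S.F k).n / lam)
    rw [div_lt_iff₀ (by linarith)] at h1
    have h2 : (L k : ℝ) = (⌊(w - θ) * (S.F k).n / lam⌋₊ : ℝ) := rfl
    rw [h2]
    linarith
  have hL3 : ∀ k, (L k : ℝ) ≤ (S.F k).n := by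
    intro k
    have hn := (S.F k).pos
    have h0 : (0 : ℝ) ≤ L k := Nat.cast_nonneg _
    have h1 := hL1 k
    have h2 : (w - θ) * (S.F k).n ≤ 1 * (S.F k).n := mul_le_mul_of_nonneg_right (by linarith) hn.le
    nlinarith
  have hAL : ∀ k, A ^ (L k) ≤ 2 ^ ((w - θ) * (S.F k).n) := by
    intro k
    rw [hAlam, ← Real.rpow_natCast, ← Real.rpow_mul (by norm_num)]
    exact Real.rpow_le_rpow_of_exponent_le (by norm_num) (hL1 k)
  -- bounds
  obtain ⟨Ca, hCas, hCa⟩ := a.bd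
  obtain ⟨Cx, hCxs, hCx⟩ := x.bd
  obtain ⟨Ct, hCts, hCt⟩ := t.bd
  obtain ⟨C, hC⟩ : ∃ C : ℕ → ℝ, C = fun k => max (max (Ca k) (Cx k)) (max (Ct k) 1) := ⟨_, rfl⟩
  have hC1 : ∀ k, 1 ≤ C k := fun k => by
    rw [hC]; exact (le_max_right (Ct k) 1).trans (le_max_right _ _)
  have hCsub : S.Sub C := by
    refine (((hCas.add hCxs).add hCts).add (S.Sub_const zero_le_one)).mono
      (Eventually.of_forall fun k => zero_le_one.trans (hC1 k)) ?_
    filter_upwards [hCas.1, hCxs.1, hCts.1] with k e1 e2 e3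
    rw [hC]
    refine max_le (max_le ?_ ?_) (max_le ?_ ?_) <;> linarith
  have hdl1 : ∀ (s : ℝ) k, 0 ≤ s → S.dl s k ≤ 1 := by
    intro s k hs
    have := S.dl_anti hs k
    rwa [Sp.dl_zero] at this
  -- the finite construction
  have H : ∀ k, ∃ (V W : (S.F k).Ω → List (Fin r → SignType)) (q : (S.F k).Ω → MvPolynomial (Fin (m + 1)) ℝ)
      (U Bad : (S.F k).Ω → Prop),
      (∀ ω, (S.F k).μ ω ≠ 0 → |t.v k ω 0| ≤ C k ∧ (∀ i, |a.v k ω i| ≤ C k) ∧ (∀ i, |x.v k ω i| ≤ C k)) →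
      ((∀ ω ω', (S.F k).Z ω ω' → V ω = V ω' → q ω = q ω' ∧ (U ω ↔ U ω')) ∧
        (∀ ω ω', (S.F k).Z ω ω' → Sp.cell (S.dl 1 k) (t.v k ω) = Sp.cell (S.dl 1 k) (t.v k ω') →
          Sp.cell (S.dl 1 k) (fun i => a.v k ω i + t.v k ω 0 * x.v k ω i) =
            Sp.cell (S.dl 1 k) (fun i => a.v k ω' i + t.v k ω' 0 * x.v k ω' i) → V ω = V ω') ∧
        (∀ ω, q ω ≠ 0 ∧ (q ω).totalDegree ≤ r * D) ∧
        (∀ ω, (S.F k).μ ω ≠ 0 → ¬ U ω → ∃ y : Fin (m + 1) → ℝ, |y 0 - t.v k ω 0| ≤ 6 * C k * S.dl 1 k ∧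
          (∀ i : Fin m, |y i.succ - (a.v k ω i + t.v k ω 0 * x.v k ω i)| ≤ 6 * C k * S.dl 1 k) ∧ eval y (q ω) = 0) ∧
        (∀ ω0, ∑ ω, ∑ ω', (if Quotient.mk (S.F k).Z ω = Quotient.mk (S.F k).Z ω0 ∧
            Quotient.mk (S.F k).Z ω' = Quotient.mk (S.F k).Z ω0 ∧
            V ω = V ω' then res (S.F k).μ U ω * res (S.F k).μ U ω' else 0) ≤
          A ^ (-((((m : ℝ) + 1) - η') * L k)) * (pr (S.F k).μ (Quotient.mk (S.F k).Z) ω0) ^ 2) ∧
        (∀ ω, (V ω).length ≤ L k ∧ ((S.F k).μ ω ≠ 0 → V ω = (W ω).drop (L k - (V ω).length))) ∧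
        (∀ ω ω', (S.F k).Z ω ω' → a.cellv 1 k ω = a.cellv 1 k ω' → x.cellv 1 k ω = x.cellv 1 k ω' →
          Sp.cell (S.dl 1 k) (t.v k ω) = Sp.cell (S.dl 1 k) (t.v k ω') → W ω = W ω') ∧
        (∀ ω ω', (S.F k).Z ω ω' → a.cellv 1 k ω = a.cellv 1 k ω' → x.cellv 1 k ω = x.cellv 1 k ω' →
          t.cellv w k ω = t.cellv w k ω' → ¬ Bad ω → W ω = W ω') ∧
        (∀ ω, ∃ T : Finset ℤ, T.card ≤ 3 * (r * D + 1) ^ L k ∧ ∀ ω', (S.F k).Z ω ω' →
          a.cellv 1 k ω = a.cellv 1 k ω' → x.cellv 1 k ω = x.cellv 1 k ω' → Bad ω' →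
          Sp.cell (S.dl w k) (t.v k ω') 0 ∈ T)) := by
    intro k
    by_cases hcond : ∀ ω, (S.F k).μ ω ≠ 0 → |t.v k ω 0| ≤ C k ∧ (∀ i, |a.v k ω i| ≤ C k) ∧ (∀ i, |x.v k ω i| ≤ C k)
    · obtain ⟨V, W, q, U, Bad, h1, h2, h3, h4, h5, h6, h7, h8, h9, _⟩ := hfin (S.F k) (a.v k) (x.v k) (t.v k) (C k) (S.dl 1 k)
        (S.dl w k) (hC1 k) (S.dl_pos 1 k) (S.dl_anti hw1 k) (hdl1 1 k zero_le_one) hcond (L k)
      refine ⟨V, W, q, U, Bad, fun _ => ⟨h1, h2, h3, h4, fun ω0 => ?_, h6, h7, h8, h9⟩⟩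
      exact h5 ω0
    · exact ⟨fun _ => [], fun _ => [], fun _ => 1, fun _ => True, fun _ => True, fun h => absurd h hcond⟩
  choose V W q U Bad HH using H
  have hev : ∀ᶠ k in UF, ∀ ω, (S.F k).μ ω ≠ 0 →
      |t.v k ω 0| ≤ C k ∧ (∀ i, |a.v k ω i| ≤ C k) ∧ (∀ i, |x.v k ω i| ≤ C k) := by
    filter_upwards [hCa, hCx, hCt] with k e1 e2 e3 ω hω
    rw [hC]
    exact ⟨(e3 ω hω 0).trans ((le_max_left (Ct k) 1).trans (le_max_right _ _)),
      fun i => (e1 ω hω i).trans ((le_max_left (Ca k) (Cx k)).trans (le_max_left _ _)),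
      fun i => (e2 ω hω i).trans ((le_max_right (Ca k) (Cx k)).trans (le_max_left _ _))⟩
  set P := ptv a x t with hP
  have hPv : ∀ k ω, P.v k ω = fun i => a.v k ω i + t.v k ω 0 * x.v k ω i := fun _ _ => rfl
  -- the label is a function of the point
  have hY : Bdd (fun k ω => (t.cellv 1 k ω, P.cellv 1 k ω)) := (t.bdd 1).pair (P.bdd 1)
  have hfun : ∀ᶠ k in UF, ∀ ω ω', (S.F k).μ ω ≠ 0 → (S.F k).μ ω' ≠ 0 → (S.F k).Z ω ω' →
      (t.cellv 1 k ω, P.cellv 1 k ω) = (t.cellv 1 k ω', P.cellv 1 k ω') → V k ω = V k ω' := by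
    filter_upwards [hev] with k hk ω ω' _ _ hz heq
    rw [Prod.mk.injEq] at heq
    exact (HH k hk).2.1 ω ω' hz heq.1 heq.2
  have hVb : Bdd V := hY.of_fun hfun
  -- the bad windows
  have hg : ∀ k, (fun ω => ((a.cellv 1 k ω, x.cellv 1 k ω), Quotient.mk (S.F k).Z ω)) =
      fun ω => ((a.cellv 1 k ω, x.cellv 1 k ω), Quotient.mk (S.F k).Z ω) := fun _ => rfl
  have hrt : Tendsto (S.rt (fun k => Setoid.ker (t.cellv w k))
      (fun k => Setoid.ker (fun ω => (a.cellv 1 k ω, x.cellv 1 k ω)))) UF (𝓝 w) := by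
    have h1 := ul_tendsto (Sp.UB_rt (t.bdd w).toInf (fun k => Setoid.ker (fun ω => (a.cellv 1 k ω, x.cellv 1 k ω))))
    rw [Sp.Bdd.toInf_val] at h1
    have h2 : ul (S.rt (fun k => Setoid.ker (t.cellv w k))
        (fun k => Setoid.ker (fun ω => (a.cellv 1 k ω, x.cellv 1 k ω)))) = w := by
      refine Eq.trans ?_ hht
      unfold VV.dg
      rw [← Sp.io_pair (a.bdd 1) (x.bdd 1), Sp.h_io (t.bdd w) ((a.bdd 1).pair (x.bdd 1))]
    rw [h2] at h1
    exact h1
  have hbad : Tendsto (fun k => mass (res (S.F k).μ (Bad k))) UF (𝓝 0) := by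
    have hlim : Tendsto (fun k => (w - S.rt (fun k => Setoid.ker (t.cellv w k))
        (fun k => Setoid.ker (fun ω => (a.cellv 1 k ω, x.cellv 1 k ω))) k +
        (Real.logb 2 (12 * C k) + 1) / (S.F k).n) / θ) UF (𝓝 0) := by
      have h0 := (sub_logb S hCsub hC1 12 (by norm_num)).add (S.div_n_tendsto 1)
      have h1 := ((hrt.const_sub w).add h0).div_const θ
      refine Tendsto.congr (fun k => ?_) (by simpa using h1)
      rw [add_div (Real.logb 2 (12 * C k)) 1, one_div]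
    refine squeeze_zero' (Eventually.of_forall fun k => mass_nn _ _ (S.F k).nn) ?_ hlim
    filter_upwards [hev] with k hk
    obtain ⟨_, _, _, _, _, _, _, _, h9⟩ := HH k hk
    refine bad_bound (S.F k).μ (t.v k) (fun ω => ((a.cellv 1 k ω, x.cellv 1 k ω), Quotient.mk (S.F k).Z ω)) (Bad k) (C k)
      (S.dl w k) (A ^ (L k)) (S.F k).n w θ _ (S.F k).nn (S.F k).ms (hC1 k) (S.dl_pos w k) (hdl1 w k hw0.le) (S.F k).pos hθ0
      (fun ω hω => (hk ω hω).1) rfl (by positivity) (hAL k) ?_ ?_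
    · intro ω
      obtain ⟨T, hT1, hT2⟩ := h9 ω
      refine ⟨T, ?_, fun ω' hgg hb => ?_⟩
      · have : (T.card : ℝ) ≤ ((3 * (r * D + 1) ^ L k : ℕ) : ℝ) := by exact_mod_cast hT1
        push_cast at this
        exact this
      · rw [Prod.mk.injEq, Prod.mk.injEq] at hgg
        exact hT2 ω' (Quotient.exact hgg.2) hgg.1.1 hgg.1.2 hb
    · have hn := (S.F k).pos
      have h1 : S.rt (fun k => Setoid.ker (t.cellv w k))
          (fun k => Setoid.ker (fun ω => (a.cellv 1 k ω, x.cellv 1 k ω))) k * (S.F k).n =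
          (S.F k).e (Setoid.ker (t.cellv w k)) (Setoid.ker (fun ω => (a.cellv 1 k ω, x.cellv 1 k ω)) ⊓ (S.F k).Z) := by
        show _ / _ * _ = _
        exact div_mul_cancel₀ _ hn.ne'
      rw [h1, e_base]
      rfl
  -- the label is a function of the line and the window
  have hW : io V ≤ a.dg 1 ⊔ x.dg 1 ⊔ t.dg w := by
    unfold VV.dg
    have hax := (a.bdd 1).pair (x.bdd 1)
    rw [← Sp.io_pair (a.bdd 1) (x.bdd 1), ← Sp.io_pair hax (t.bdd w), Sp.io_le_io hVb (hax.pair (t.bdd w))]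
    have hlim : Tendsto (fun k => mass (res (S.F k).μ (Bad k)) * (1 + Real.logb 2 (4 * C k) / (S.F k).n) +
        2 * (Real.logb 2 ((S.F k).n + 1) / (S.F k).n) + 1 / (S.F k).n) UF (𝓝 0) := by
      have h1 := (hbad.mul ((sub_logb S hCsub hC1 4 (by norm_num)).const_add 1)).add
        ((log_div_tendsto S).const_mul 2)
      have h2 := h1.add (S.div_n_tendsto 1)
      simpa using h2
    refine squeeze_zero' (Eventually.of_forall fun k => Sp.rt_nonneg _ _ k) ?_ hlim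
    filter_upwards [hev] with k hk
    obtain ⟨_, _, _, _, _, h6, h7, h8, _⟩ := HH k hk
    have hn := (S.F k).pos
    have h1 := label_bound (S.F k).μ (t.v k)
      (fun ω => (((a.cellv 1 k ω, x.cellv 1 k ω), t.cellv w k ω), Quotient.mk (S.F k).Z ω)) (Bad k) (V k) (W k) (L k) (C k)
      (S.dl 1 k) (S.F k).n (S.F k).nn (S.F k).ms (hC1 k) (S.dl_pos 1 k) (hdl1 1 k zero_le_one)
      (fun ω hω => (hk ω hω).1) rfl h6
      (fun ω ω' hgg ht => by
        rw [Prod.mk.injEq, Prod.mk.injEq, Prod.mk.injEq] at hgg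
        exact h7 ω ω' (Quotient.exact hgg.2) hgg.1.1.1 hgg.1.1.2 ht)
      (fun ω ω' hgg hb => by
        rw [Prod.mk.injEq, Prod.mk.injEq, Prod.mk.injEq] at hgg
        exact h8 ω ω' (Quotient.exact hgg.2) hgg.1.1.1 hgg.1.1.2 hgg.1.2 hb)
    have h2 : S.rt (fun k => Setoid.ker (V k))
        (fun k => Setoid.ker (fun ω => ((a.cellv 1 k ω, x.cellv 1 k ω), t.cellv w k ω))) k =
        CH (S.F k).μ (V k) (fun ω => (((a.cellv 1 k ω, x.cellv 1 k ω), t.cellv w k ω), Quotient.mk (S.F k).Z ω)) /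
          (S.F k).n := by
      show _ / _ = _ / _
      rw [e_base]
    rw [h2, div_le_iff₀ hn]
    have h3 : (mass (res (S.F k).μ (Bad k)) * (1 + Real.logb 2 (4 * C k) / (S.F k).n) +
        2 * (Real.logb 2 ((S.F k).n + 1) / (S.F k).n) + 1 / (S.F k).n) * (S.F k).n =
        mass (res (S.F k).μ (Bad k)) * ((S.F k).n + Real.logb 2 (4 * C k)) +
        2 * Real.logb 2 ((S.F k).n + 1) + 1 := by
      field_simp
    rw [h3]
    refine h1.trans ?_
    have h4 : Real.logb 2 ((L k : ℝ) + 1) ≤ Real.logb 2 ((S.F k).n + 1) :=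
      Real.logb_le_logb_of_le (by norm_num) (by positivity) (by linarith [hL3 k])
    linarith
  -- the constant
  refine ⟨V, q, U, fun k => 6 * C k, ((m : ℝ) + 1) * lam + 4, (S.Sub_const (by norm_num)).mul hCsub, hVb, ?_, hW,
    ?_, ?_, ?_, ?_⟩
  · have h1 := Sp.io_le_of_fun hY hfun
    rw [Sp.io_pair (t.bdd 1) (P.bdd 1)] at h1
    exact h1
  · filter_upwards [hev] with k hk using (HH k hk).2.2.1
  · filter_upwards [hev] with k hk using (HH k hk).1
  · filter_upwards [hev] with k hk ω hω hu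
    obtain ⟨y, hy1, hy2, hy3⟩ := (HH k hk).2.2.2.1 ω hω hu
    exact ⟨y, hy1, hy2, hy3⟩
  · filter_upwards [hev] with k hk
    have hn := (S.F k).pos
    set ν := res (S.F k).μ (U k) with hν
    have hE4 := (st_E4 st_E1 st_E3).2.2 (S.F k).Ω (S.F k).μ (U k) (S.F k).nn
    have hν0 : ∀ ω, 0 ≤ ν ω := hE4.2.2
    rcases hE4.2.1.eq_or_lt with h0 | hpos
    · rw [← h0, zero_mul]
      have h1 : 0 ≤ CH ν (V k) (Quotient.mk (S.F k).Z) :=
        (st_E1 _ _ (List (Fin r → SignType)) _ ν (V k) (V k) (Quotient.mk (S.F k).Z) hν0).1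
      have h2 : 0 ≤ ((m : ℝ) + 1) * lam := by positivity
      linarith
    · have hνμ : ∀ ω, ν ω ≤ (S.F k).μ ω := by
        intro ω
        rw [hν]
        unfold res
        split_ifs
        · exact le_rfl
        · exact (S.F k).nn ω
      have hu1 : mass ν ≤ 1 := by
        have h1 := mass_nn (S.F k).μ (fun ω => ¬ U k ω) (S.F k).nn
        rw [mass_not _ _ (S.F k).nn (S.F k).ms] at h1
        linarith
      set κ : ℝ := A ^ (-((((m : ℝ) + 1) - η') * L k)) with hκ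
      have hκ0 : 0 < κ := Real.rpow_pos_of_pos hA0 _
      have h1 := coll_ch ν (S.F k).μ (V k) (Quotient.mk (S.F k).Z) κ hν0 hνμ (S.F k).ms hκ0 hpos (fun ω0 => by
        refine le_trans (le_of_eq ?_) ((HH k hk).2.2.2.2.1 ω0)
        refine Finset.sum_congr rfl (fun ω _ => Finset.sum_congr rfl (fun ω' _ => ?_))
        by_cases hc : Quotient.mk (S.F k).Z ω = Quotient.mk (S.F k).Z ω0 ∧
            Quotient.mk (S.F k).Z ω' = Quotient.mk (S.F k).Z ω0 ∧ V k ω = V k ω'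
        · rw [if_pos hc, if_pos hc]
        · rw [if_neg hc, if_neg hc])
      refine le_trans ?_ h1
      have h2 : Real.logb 2 (1 / κ) = (((m : ℝ) + 1) - η') * (lam * L k) := by
        rw [one_div, Real.logb_inv, hκ, Real.logb_rpow_eq_mul_logb_of_pos hA0]
        ring
      have h3 := ulog_le hpos
      have h4 := hL2 k
      have hNη : 0 ≤ ((m : ℝ) + 1) - η' := by linarith
      have h5 : (((m : ℝ) + 1) - η') * ((w - θ) * (S.F k).n - lam) ≤ (((m : ℝ) + 1) - η') * (lam * L k) :=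
        mul_le_mul_of_nonneg_left h4 hNη
      have h6 : ((m : ℝ) + 1 - η) * w ≤ (((m : ℝ) + 1) - η') * (w - θ) := by
        have e1 : θ * ((m : ℝ) + 1) = η' * w / 2 := by rw [hθ]; field_simp
        have e2 : (((m : ℝ) + 1) - η') * (w - θ) = ((m : ℝ) + 1) * w - η' * w - θ * ((m : ℝ) + 1) + η' * θ := by ring
        rw [e2, e1]
        nlinarith [mul_pos hη'0 hθ0, mul_pos hη'0 hw0]
      have h7 : ((m : ℝ) + 1 - η) * w * (S.F k).n - ((m : ℝ) + 1) * lam ≤ (((m : ℝ) + 1) - η') * (lam * L k) := by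
        have e1 := mul_le_mul_of_nonneg_right h6 hn.le
        nlinarith [mul_nonneg hη'0.le (by linarith : (0 : ℝ) ≤ lam)]
      rw [h2]
      have h8 := mul_le_mul_of_nonneg_left h7 hpos.le
      have h9 : mass ν * (((m : ℝ) + 1) * lam) ≤ ((m : ℝ) + 1) * lam := by
        have : 0 ≤ ((m : ℝ) + 1) * lam := by positivity
        nlinarith
      nlinarith

end

end Pool.Agent.Helper89.PL
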