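import Pool.Agent.Helper89.PL.Rel

/-! Splitting by random functionals, part 2: averages over tuples. -/

namespace Pool.Agent.Helper89.PL

open Finset

noncomputable section

/-- product weight of a tuple -/
def W {T : Type} {k : ℕ} (ν : T → ℝ) (z : Fin k → T) : ℝ := ∏ i, ν (z i)

theorem W_nonneg {T : Type} {k : ℕ} {ν : T → ℝ} (hν : ∀ x, 0 ≤ ν x) (z : Fin k → T) : 0 ≤ W ν z :=
  Finset.prod_nonneg fun _ _ => hν _

theorem sum_W {T : Type} [Fintype T] {ν : T → ℝ} (h1 : ∑ x, ν x = 1) (k : ℕ) : ∑ z : Fin k → T, W ν z = 1 := by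
  have := Finset.prod_univ_sum (fun _ : Fin k => (univ : Finset T)) (fun _ x => ν x)
  simp only [h1, Finset.prod_const_one, Fintype.piFinset_univ] at this
  exact this.symm

theorem sum_insert {T : Type} [Fintype T] {k : ℕ} (ν : T → ℝ) (i : Fin (k + 1)) (g : T → (Fin k → T) → ℝ) :
    ∑ z : Fin (k + 1) → T, W ν z * g (z i) (fun l => z (i.succAbove l)) =
      ∑ x, ∑ w : Fin k → T, ν x * (W ν w * g x w) := by
  rw [← Fintype.sum_prod_type', ← Equiv.sum_comp (Fin.insertNthEquiv (fun _ => T) i)]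
  refine Finset.sum_congr rfl (fun p _ => ?_)
  have h1 : (Fin.insertNthEquiv (fun _ => T) i) p = Fin.insertNth i p.1 p.2 := rfl
  rw [h1]
  have h2 : (Fin.insertNth i p.1 p.2 : Fin (k + 1) → T) i = p.1 := Fin.insertNth_apply_same ..
  have h3 : (fun l => (Fin.insertNth i p.1 p.2 : Fin (k + 1) → T) (i.succAbove l)) = p.2 := by
    funext l
    exact Fin.insertNth_apply_succAbove ..
  have h4 : W ν (Fin.insertNth i p.1 p.2 : Fin (k + 1) → T) = ν p.1 * W ν p.2 := by
    unfold W
    rw [Fin.prod_univ_succAbove _ i, h2]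
    congr 1
    refine Finset.prod_congr rfl (fun l _ => ?_)
    rw [← congrFun h3 l]
  rw [h2, h3, h4, mul_assoc]

theorem sum_pair {T : Type} [Fintype T] {K : ℕ} (ν : T → ℝ) (i : Fin (K + 2)) (j : Fin (K + 1))
    (g : T → T → (Fin K → T) → ℝ) :
    ∑ z : Fin (K + 2) → T, W ν z * g (z i) (z (i.succAbove j)) (rest z i j) =
      ∑ x, ∑ y, ∑ R : Fin K → T, ν x * (ν y * (W ν R * g x y R)) := by
  have h1 := sum_insert ν i (fun x w => g x (w j) (fun k => w (j.succAbove k)))
  unfold rest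
  rw [h1]
  refine Finset.sum_congr rfl (fun x _ => ?_)
  rw [← Finset.mul_sum, sum_insert ν j (fun y R => g x y R), Finset.mul_sum]
  refine Finset.sum_congr rfl (fun y _ => ?_)
  rw [Finset.mul_sum]

/-- number of ordered pairs of equal sign -/
theorem count {n : ℕ} (b s : Fin (n + 1) → ℝ) (hb : ∀ i, b i = 0 ∨ b i = 1) (hs : ∀ i, s i = 1 ∨ s i = -1) :
    (∑ i, ∑ j : Fin n, b i * b (i.succAbove j)) / 2 - (∑ i, b i) / 2 ≤
      ∑ i, ∑ j : Fin n, b i * b (i.succAbove j) * ((1 + s i * s (i.succAbove j)) / 2) := by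
  have key : ∀ G : Fin (n + 1) → Fin (n + 1) → ℝ,
      ∑ i, ∑ j : Fin n, G i (i.succAbove j) = (∑ i, ∑ k, G i k) - ∑ i, G i i := by
    intro G
    rw [← Finset.sum_sub_distrib]
    refine Finset.sum_congr rfl (fun i _ => ?_)
    rw [Fin.sum_univ_succAbove (fun k => G i k) i]
    ring
  rw [key (fun i k => b i * b k), key (fun i k => b i * b k * ((1 + s i * s k) / 2))]
  have h1 : ∑ i, ∑ k, b i * b k = (∑ i, b i) ^ 2 := by
    rw [sq, Finset.sum_mul_sum]
  have h2 : ∑ i, ∑ k, b i * b k * ((1 + s i * s k) / 2) = ((∑ i, b i) ^ 2 + (∑ i, b i * s i) ^ 2) / 2 := by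
    rw [sq, sq, Finset.sum_mul_sum, Finset.sum_mul_sum, ← Finset.sum_add_distrib, Finset.sum_div]
    refine Finset.sum_congr rfl (fun i _ => ?_)
    rw [← Finset.sum_add_distrib, Finset.sum_div]
    refine Finset.sum_congr rfl (fun k _ => ?_)
    ring
  have h3 : ∑ i, b i * b i = ∑ i, b i := by
    refine Finset.sum_congr rfl (fun i _ => ?_)
    rcases hb i with h | h <;> rw [h] <;> norm_num
  have h4 : ∑ i, b i * b i * ((1 + s i * s i) / 2) = ∑ i, b i := by
    refine Finset.sum_congr rfl (fun i _ => ?_)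
    rcases hb i with h | h <;> rcases hs i with h' | h' <;> rw [h, h'] <;> norm_num
  rw [h1, h2, h3, h4]
  nlinarith [sq_nonneg (∑ i, b i * s i)]

/-- probability that the random functional does not give `x` and `y` the same strict sign -/
def dd {T : Type} [Fintype T] {K : ℕ} (ν : T → ℝ) (u : T → Fin (K + 1) → ℝ) (x y : T) : ℝ :=
  ∑ R : Fin K → T, W ν R * (if 0 < (fn u R ⬝ᵥ u x) * (fn u R ⬝ᵥ u y) then 0 else 1)

theorem dd_nonneg {T : Type} [Fintype T] {K : ℕ} {ν : T → ℝ} (hν : ∀ x, 0 ≤ ν x) (u : T → Fin (K + 1) → ℝ)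
    (x y : T) : 0 ≤ dd ν u x y :=
  Finset.sum_nonneg fun R _ => mul_nonneg (W_nonneg hν R) (by split_ifs <;> norm_num)

theorem dd_comm {T : Type} [Fintype T] {K : ℕ} (ν : T → ℝ) (u : T → Fin (K + 1) → ℝ) (x y : T) :
    dd ν u x y = dd ν u y x := by
  unfold dd
  refine Finset.sum_congr rfl (fun R _ => ?_)
  rw [mul_comm (fn u R ⬝ᵥ u x)]

theorem dd_tri {T : Type} [Fintype T] {K : ℕ} {ν : T → ℝ} (hν : ∀ x, 0 ≤ ν x) (u : T → Fin (K + 1) → ℝ)
    (x y z : T) : dd ν u x z ≤ dd ν u x y + dd ν u y z := by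
  unfold dd
  rw [← Finset.sum_add_distrib]
  refine Finset.sum_le_sum (fun R _ => ?_)
  rw [← mul_add]
  refine mul_le_mul_of_nonneg_left ?_ (W_nonneg hν R)
  set a := fn u R ⬝ᵥ u x
  set b := fn u R ⬝ᵥ u y
  set c := fn u R ⬝ᵥ u z
  by_cases h1 : 0 < a * b
  · by_cases h2 : 0 < b * c
    · have h3 : 0 < a * c := by
        have : 0 < (a * b) * (b * c) := mul_pos h1 h2
        have h4 : (a * b) * (b * c) = b ^ 2 * (a * c) := by ring
        rw [h4] at this
        by_contra hc
        push Not at hc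
        exact absurd this (not_lt.2 (mul_nonpos_of_nonneg_of_nonpos (sq_nonneg b) hc))
      rw [if_pos h3, if_pos h1, if_pos h2]
      norm_num
    · rw [if_neg h2]
      split_ifs <;> norm_num
  · rw [if_neg h1]
    split_ifs <;> norm_num

theorem sum_const_pair {T : Type} [Fintype T] {K : ℕ} {ν : T → ℝ} (h1 : ∑ x, ν x = 1) (i : Fin (K + 2))
    (j : Fin (K + 1)) (g : T → T → ℝ) :
    ∑ z : Fin (K + 2) → T, W ν z * g (z i) (z (i.succAbove j)) = ∑ x, ∑ y, ν x * (ν y * g x y) := by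
  have h2 := sum_pair ν i j (fun x y (_ : Fin K → T) => g x y)
  rw [h2]
  refine Finset.sum_congr rfl (fun x _ => Finset.sum_congr rfl (fun y _ => ?_))
  rw [← Finset.mul_sum, ← Finset.mul_sum, ← Finset.sum_mul, sum_W h1, one_mul]

theorem sum_const_one {T : Type} [Fintype T] {k : ℕ} {ν : T → ℝ} (h1 : ∑ x, ν x = 1) (i : Fin (k + 1))
    (g : T → ℝ) : ∑ z : Fin (k + 1) → T, W ν z * g (z i) = ∑ x, ν x * g x := by
  have h2 := sum_insert ν i (fun x (_ : Fin k → T) => g x)
  rw [h2]
  refine Finset.sum_congr rfl (fun x _ => ?_)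
  rw [← Finset.mul_sum, ← Finset.sum_mul, sum_W h1, one_mul]

/-- average of `dd` over the pairs of a set `B` (indicator `b`) -/
theorem ball_avg {T : Type} [Fintype T] [DecidableEq T] {K : ℕ} {ν : T → ℝ} (hν : ∀ x, 0 ≤ ν x) (h1 : ∑ x, ν x = 1)
    {u : T → Fin (K + 1) → ℝ} (hu : GenPos K u) (b : T → ℝ) (hb : ∀ x, b x = 0 ∨ b x = 1) :
    (∑ x, ν x * b x) ^ 2 / 2 - (∑ x, ν x * b x) / (2 * (K + 1)) -
        ((K : ℝ) + 2) * (K + 1) * (∑ x, ν x ^ 2) / 2 ≤
      ∑ x, ∑ y, ν x * (ν y * (b x * b y * dd ν u x y)) := by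
  set θ := ∑ x, ν x * b x with hθ
  set X := ∑ x, ∑ y, ν x * (ν y * (b x * b y * dd ν u x y)) with hX
  -- pointwise inequality
  have hpt : ∀ z : Fin (K + 2) → T,
      (∑ i, ∑ j : Fin (K + 1), b (z i) * b (z (i.succAbove j))) / 2 - (∑ i, b (z i)) / 2 -
        ((K : ℝ) + 2) * (K + 1) / 2 * (∑ i : Fin (K + 2), ∑ j : Fin (K + 1),
          if z i = z (i.succAbove j) then (1 : ℝ) else 0) ≤
      ∑ i, ∑ j : Fin (K + 1), b (z i) * b (z (i.succAbove j)) *
        (if 0 < (fn u (rest z i j) ⬝ᵥ u (z i)) * (fn u (rest z i j) ⬝ᵥ u (z (i.succAbove j))) then 0 else 1) := by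
    intro z
    have hb0 : ∀ x, 0 ≤ b x := fun x => by rcases hb x with h | h <;> rw [h] <;> norm_num
    have hb1 : ∀ x, b x ≤ 1 := fun x => by rcases hb x with h | h <;> rw [h] <;> norm_num
    by_cases hz : Function.Injective z
    · obtain ⟨c, hc0, hc⟩ := exists_rel hu z hz
      have h2 := count (fun i => b (z i)) (fun i => if 0 < c i then 1 else -1) (fun i => hb _)
        (fun i => by by_cases h : 0 < c i <;> simp [h])
      have h3 : ∑ i : Fin (K + 2), ∑ j : Fin (K + 1), (if z i = z (i.succAbove j) then (1 : ℝ) else 0) = 0 := by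
        refine Finset.sum_eq_zero (fun i _ => Finset.sum_eq_zero (fun j _ => ?_))
        rw [if_neg]
        intro h
        exact Fin.succAbove_ne i j (hz h).symm
      rw [h3, mul_zero, sub_zero]
      refine h2.trans ?_
      refine Finset.sum_le_sum (fun i _ => Finset.sum_le_sum (fun j _ => ?_))
      refine mul_le_mul_of_nonneg_left ?_ (mul_nonneg (hb0 _) (hb0 _))
      by_cases h4 : 0 < c i * c (i.succAbove j)
      · rw [if_neg (not_lt.2 (hc i j h4))]
        by_cases h5 : 0 < c i <;> by_cases h6 : 0 < c (i.succAbove j) <;> simp [h5, h6]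
      · have h5 : (1 + (if 0 < c i then (1 : ℝ) else -1) * (if 0 < c (i.succAbove j) then (1 : ℝ) else -1)) / 2 = 0 := by
          by_cases h6 : 0 < c i
          · have h7 : ¬ 0 < c (i.succAbove j) := fun h => h4 (mul_pos h6 h)
            simp [h6, h7]
          · have h6' : c i < 0 := lt_of_le_of_ne (not_lt.1 h6) (hc0 i)
            have h7 : 0 < c (i.succAbove j) := by
              by_contra h
              have h' : c (i.succAbove j) < 0 := lt_of_le_of_ne (not_lt.1 h) (hc0 _)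
              exact h4 (mul_pos_of_neg_of_neg h6' h')
            simp [h6, h7]
        rw [h5]
        split_ifs <;> norm_num
    · have h2 : (1 : ℝ) ≤ ∑ i : Fin (K + 2), ∑ j : Fin (K + 1), (if z i = z (i.succAbove j) then (1 : ℝ) else 0) := by
        rw [Function.Injective] at hz
        push Not at hz
        obtain ⟨i, k, hik, hne⟩ := hz
        obtain ⟨j, hj⟩ := Fin.exists_succAbove_eq (Ne.symm hne)
        have h3 : (if z i = z (i.succAbove j) then (1 : ℝ) else 0) = 1 := by rw [hj, if_pos hik]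
        calc (1 : ℝ) = (if z i = z (i.succAbove j) then (1 : ℝ) else 0) := h3.symm
          _ ≤ ∑ j : Fin (K + 1), (if z i = z (i.succAbove j) then (1 : ℝ) else 0) :=
            Finset.single_le_sum (f := fun j => if z i = z (i.succAbove j) then (1 : ℝ) else 0)
              (fun j _ => by split_ifs <;> norm_num) (Finset.mem_univ j)
          _ ≤ _ := Finset.single_le_sum
              (f := fun i => ∑ j : Fin (K + 1), if z i = z (i.succAbove j) then (1 : ℝ) else 0)
              (fun i _ => Finset.sum_nonneg fun j _ => by split_ifs <;> norm_num) (Finset.mem_univ i)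
      have h3 : ∑ i : Fin (K + 2), ∑ j : Fin (K + 1), b (z i) * b (z (i.succAbove j)) ≤ ((K : ℝ) + 2) * (K + 1) := by
        calc ∑ i : Fin (K + 2), ∑ j : Fin (K + 1), b (z i) * b (z (i.succAbove j))
            ≤ ∑ _i : Fin (K + 2), ∑ _j : Fin (K + 1), (1 : ℝ) :=
              Finset.sum_le_sum fun i _ => Finset.sum_le_sum fun j _ =>
                mul_le_one₀ (hb1 _) (hb0 _) (hb1 _)
          _ = _ := by simp; ring
      have h4 : 0 ≤ ∑ i, b (z i) := Finset.sum_nonneg fun i _ => hb0 _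
      have h5 : 0 ≤ ∑ i, ∑ j : Fin (K + 1), b (z i) * b (z (i.succAbove j)) *
        (if 0 < (fn u (rest z i j) ⬝ᵥ u (z i)) * (fn u (rest z i j) ⬝ᵥ u (z (i.succAbove j))) then (0 : ℝ) else 1) :=
        Finset.sum_nonneg fun i _ => Finset.sum_nonneg fun j _ => mul_nonneg (mul_nonneg (hb0 _) (hb0 _))
          (by split_ifs <;> norm_num)
      have h6 : (0 : ℝ) ≤ ((K : ℝ) + 2) * (K + 1) / 2 := by positivity
      have h7 := mul_le_mul_of_nonneg_left h2 h6
      linarith
  -- sum over z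
  have hsum := Finset.sum_le_sum (fun (z : Fin (K + 2) → T) (_ : z ∈ univ) =>
    mul_le_mul_of_nonneg_left (hpt z) (W_nonneg hν z))
  have e1 : ∑ z : Fin (K + 2) → T, W ν z * ∑ i, ∑ j : Fin (K + 1), b (z i) * b (z (i.succAbove j)) *
        (if 0 < (fn u (rest z i j) ⬝ᵥ u (z i)) * (fn u (rest z i j) ⬝ᵥ u (z (i.succAbove j))) then (0 : ℝ) else 1) =
      ((K : ℝ) + 2) * (K + 1) * X := by
    simp only [Finset.mul_sum]
    rw [Finset.sum_comm]
    have : ∀ i : Fin (K + 2), ∑ z : Fin (K + 2) → T, ∑ j : Fin (K + 1), W ν z * (b (z i) * b (z (i.succAbove j)) *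
        (if 0 < (fn u (rest z i j) ⬝ᵥ u (z i)) * (fn u (rest z i j) ⬝ᵥ u (z (i.succAbove j))) then (0 : ℝ) else 1)) =
        (K + 1) * X := by
      intro i
      rw [Finset.sum_comm]
      have h2 : ∀ j : Fin (K + 1), ∑ z : Fin (K + 2) → T, W ν z * (b (z i) * b (z (i.succAbove j)) *
        (if 0 < (fn u (rest z i j) ⬝ᵥ u (z i)) * (fn u (rest z i j) ⬝ᵥ u (z (i.succAbove j))) then (0 : ℝ) else 1)) =
          X := by
        intro j
        have h3 := sum_pair ν i j (fun x y R => b x * b y *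
          (if 0 < (fn u R ⬝ᵥ u x) * (fn u R ⬝ᵥ u y) then (0 : ℝ) else 1))
        rw [h3, hX]
        refine Finset.sum_congr rfl (fun x _ => Finset.sum_congr rfl (fun y _ => ?_))
        unfold dd
        rw [Finset.mul_sum, Finset.mul_sum, Finset.mul_sum]
        refine Finset.sum_congr rfl (fun R _ => ?_)
        ring
      rw [Finset.sum_congr rfl (fun j _ => h2 j)]
      simp
    rw [Finset.sum_congr rfl (fun i _ => this i)]
    simp
    ring
  have e2 : ∑ z : Fin (K + 2) → T, W ν z * ((∑ i, ∑ j : Fin (K + 1), b (z i) * b (z (i.succAbove j))) / 2 -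
        (∑ i, b (z i)) / 2 - ((K : ℝ) + 2) * (K + 1) / 2 * (∑ i : Fin (K + 2), ∑ j : Fin (K + 1),
          if z i = z (i.succAbove j) then (1 : ℝ) else 0)) =
      ((K : ℝ) + 2) * (K + 1) * (θ ^ 2 / 2) - ((K : ℝ) + 2) * (θ / 2) -
        ((K : ℝ) + 2) * (K + 1) / 2 * (((K : ℝ) + 2) * (K + 1) * ∑ x, ν x ^ 2) := by
    have a1 : ∑ z : Fin (K + 2) → T, W ν z * (∑ i, ∑ j : Fin (K + 1), b (z i) * b (z (i.succAbove j))) =
        ((K : ℝ) + 2) * (K + 1) * θ ^ 2 := by
      simp only [Finset.mul_sum]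
      rw [Finset.sum_comm]
      have h2 : ∀ i : Fin (K + 2), ∑ z : Fin (K + 2) → T, ∑ j : Fin (K + 1),
          W ν z * (b (z i) * b (z (i.succAbove j))) = (K + 1) * θ ^ 2 := by
        intro i
        rw [Finset.sum_comm]
        have h3 : ∀ j : Fin (K + 1), ∑ z : Fin (K + 2) → T, W ν z * (b (z i) * b (z (i.succAbove j))) = θ ^ 2 := by
          intro j
          rw [sum_const_pair h1 i j (fun x y => b x * b y), hθ, sq, Finset.sum_mul_sum]
          refine Finset.sum_congr rfl (fun x _ => Finset.sum_congr rfl (fun y _ => ?_))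
          ring
        rw [Finset.sum_congr rfl (fun j _ => h3 j)]
        simp
      rw [Finset.sum_congr rfl (fun i _ => h2 i)]
      simp
      ring
    have a2 : ∑ z : Fin (K + 2) → T, W ν z * (∑ i, b (z i)) = ((K : ℝ) + 2) * θ := by
      simp only [Finset.mul_sum]
      rw [Finset.sum_comm, Finset.sum_congr rfl (fun i _ => sum_const_one h1 i b)]
      simp [hθ]
      left; ring
    have a3 : ∑ z : Fin (K + 2) → T, W ν z * (∑ i : Fin (K + 2), ∑ j : Fin (K + 1),
        if z i = z (i.succAbove j) then (1 : ℝ) else 0) = ((K : ℝ) + 2) * (K + 1) * ∑ x, ν x ^ 2 := by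
      simp only [Finset.mul_sum]
      rw [Finset.sum_comm]
      have h2 : ∀ i : Fin (K + 2), ∑ z : Fin (K + 2) → T, ∑ j : Fin (K + 1),
          W ν z * (if z i = z (i.succAbove j) then (1 : ℝ) else 0) = (K + 1) * ∑ x, ν x ^ 2 := by
        intro i
        rw [Finset.sum_comm]
        have h3 : ∀ j : Fin (K + 1), ∑ z : Fin (K + 2) → T, W ν z * (if z i = z (i.succAbove j) then (1 : ℝ) else 0) =
            ∑ x, ν x ^ 2 := by
          intro j
          rw [sum_const_pair h1 i j (fun x y => if x = y then (1 : ℝ) else 0)]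
          refine Finset.sum_congr rfl (fun x _ => ?_)
          rw [Finset.sum_eq_single x]
          · rw [if_pos rfl]; ring
          · intro y _ hy
            rw [if_neg (Ne.symm hy)]; ring
          · intro h
            exact absurd (Finset.mem_univ x) h
        rw [Finset.sum_congr rfl (fun j _ => h3 j)]
        simp
      rw [Finset.sum_congr rfl (fun i _ => h2 i), Finset.sum_const, Finset.card_univ, Fintype.card_fin, nsmul_eq_mul,
        ← Finset.mul_sum]
      push_cast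
      ring
    have h5 : ∀ z : Fin (K + 2) → T, W ν z * ((∑ i, ∑ j : Fin (K + 1), b (z i) * b (z (i.succAbove j))) / 2 -
        (∑ i, b (z i)) / 2 - ((K : ℝ) + 2) * (K + 1) / 2 * (∑ i : Fin (K + 2), ∑ j : Fin (K + 1),
          if z i = z (i.succAbove j) then (1 : ℝ) else 0)) =
        (W ν z * (∑ i, ∑ j : Fin (K + 1), b (z i) * b (z (i.succAbove j)))) / 2 - (W ν z * (∑ i, b (z i))) / 2 -
        ((K : ℝ) + 2) * (K + 1) / 2 * (W ν z * (∑ i : Fin (K + 2), ∑ j : Fin (K + 1),
          if z i = z (i.succAbove j) then (1 : ℝ) else 0)) := fun z => by ring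
    rw [Finset.sum_congr rfl (fun z _ => h5 z), Finset.sum_sub_distrib, Finset.sum_sub_distrib, ← Finset.sum_div,
      ← Finset.sum_div, ← Finset.mul_sum, a1, a2, a3]
    ring
  rw [e1, e2] at hsum
  have hK2 : (0 : ℝ) < (K : ℝ) + 2 := by positivity
  have hK1 : (0 : ℝ) < (K : ℝ) + 1 := by positivity
  have hKK : 0 < ((K : ℝ) + 2) * (K + 1) := mul_pos hK2 hK1
  refine le_of_mul_le_mul_left ?_ hKK
  refine le_trans (le_of_eq ?_) hsum
  field_simp

end

end Pool.Agent.Helper89.PL
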