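import Pool.Agent.Helper89.PL.Avg

/-! Splitting by random functionals, part 3: small balls and products of functionals. -/

namespace Pool.Agent.Helper89.PL

open Finset

noncomputable section

open Classical in
/-- mass of the ball of radius `1/8` of the pseudometric `dd` -/
theorem ball_mass {T : Type} [Fintype T] {K : ℕ} {ν : T → ℝ} (hν : ∀ x, 0 ≤ ν x) (h1 : ∑ x, ν x = 1)
    {u : T → Fin (K + 1) → ℝ} (hu : GenPos K u) (x : T) :
    ∑ y, ν y * (if dd ν u x y < 1 / 8 then 1 else 0) ≤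
      4 / ((K : ℝ) + 1) + 2 * √(((K : ℝ) + 2) * (K + 1) * ∑ y, ν y ^ 2) := by
  set b : T → ℝ := fun y => if dd ν u x y < 1 / 8 then 1 else 0 with hb
  have hb01 : ∀ y, b y = 0 ∨ b y = 1 := fun y => by
    by_cases h : dd ν u x y < 1 / 8
    · right; rw [hb]; exact if_pos h
    · left; rw [hb]; exact if_neg h
  have h2 := ball_avg hν h1 hu b hb01
  set θ := ∑ y, ν y * b y with hθ
  set e := ((K : ℝ) + 2) * (K + 1) * ∑ y, ν y ^ 2 with he
  have hθ0 : 0 ≤ θ := Finset.sum_nonneg fun y _ => mul_nonneg (hν y) (by rcases hb01 y with h | h <;> rw [h] <;> norm_num)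
  have he0 : 0 ≤ e := mul_nonneg (by positivity) (Finset.sum_nonneg fun y _ => sq_nonneg _)
  have h3 : ∑ y, ∑ z, ν y * (ν z * (b y * b z * dd ν u y z)) ≤ θ ^ 2 / 4 := by
    have h4 : ∑ y, ∑ z, ν y * (ν z * (b y * b z * dd ν u y z)) ≤ ∑ y, ∑ z, (ν y * b y) * (ν z * b z) * (1 / 4) := by
      refine Finset.sum_le_sum (fun y _ => Finset.sum_le_sum (fun z _ => ?_))
      by_cases hy : dd ν u x y < 1 / 8
      · by_cases hz : dd ν u x z < 1 / 8
        · have h5 : dd ν u y z ≤ 1 / 4 := by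
            have := dd_tri hν u y x z
            rw [dd_comm ν u y x] at this
            linarith
          have h6 : b y = 1 := by rw [hb]; exact if_pos hy
          have h7 : b z = 1 := by rw [hb]; exact if_pos hz
          rw [h6, h7]
          have h8 := mul_nonneg (hν y) (hν z)
          nlinarith
        · have h7 : b z = 0 := by rw [hb]; exact if_neg hz
          rw [h7]
          simp
      · have h6 : b y = 0 := by rw [hb]; exact if_neg hy
        rw [h6]
        simp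
    refine h4.trans (le_of_eq ?_)
    rw [hθ, sq, Finset.sum_mul_sum, Finset.sum_div]
    refine Finset.sum_congr rfl (fun y _ => ?_)
    rw [Finset.sum_div]
    refine Finset.sum_congr rfl (fun z _ => ?_)
    ring
  have hK : (0 : ℝ) < (K : ℝ) + 1 := by positivity
  have h4 : θ ^ 2 ≤ 2 * θ / (K + 1) + 2 * e := by
    have h5 := h2.trans h3
    have h6 : θ / (2 * ((K : ℝ) + 1)) = (2 * θ / (K + 1)) / 4 := by field_simp; ring
    rw [h6] at h5
    linarith
  by_contra hcon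
  push Not at hcon
  have h5 : 4 / ((K : ℝ) + 1) < θ := lt_of_le_of_lt (le_add_of_nonneg_right (by positivity)) hcon
  have h6 : 2 * √e < θ := lt_of_le_of_lt (le_add_of_nonneg_left (by positivity)) hcon
  have h7 : 2 * θ / (K + 1) ≤ θ ^ 2 / 2 := by
    have : 2 * θ / ((K : ℝ) + 1) = (4 / (K + 1)) * θ / 2 := by ring
    rw [this]
    have := mul_le_mul_of_nonneg_right h5.le hθ0
    nlinarith
  have h8 : 4 * e < θ ^ 2 := by
    have h9 : (2 * √e) ^ 2 < θ ^ 2 := pow_lt_pow_left₀ h6 (by positivity) (by norm_num)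
    rw [mul_pow, Real.sq_sqrt he0] at h9
    linarith
  linarith

theorem exists_le_avg {ι : Type} [Fintype ι] (w g : ι → ℝ) (hw : ∀ i, 0 ≤ w i) (h1 : ∑ i, w i = 1) (C : ℝ)
    (h : ∑ i, w i * g i ≤ C) : ∃ i, g i ≤ C := by
  by_contra hcon
  push Not at hcon
  have h2 : ∃ i ∈ (univ : Finset ι), w i * C < w i * g i := by
    by_contra h3
    push Not at h3
    have h4 : ∀ i, w i = 0 := by
      intro i
      by_contra h5
      have h6 : 0 < w i := lt_of_le_of_ne (hw i) (Ne.symm h5)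
      exact absurd (h3 i (mem_univ i)) (not_le.2 (mul_lt_mul_of_pos_left (hcon i) h6))
    rw [Finset.sum_eq_zero (fun i _ => h4 i)] at h1
    exact zero_ne_one h1
  have h3 := Finset.sum_lt_sum (fun i _ => mul_le_mul_of_nonneg_left (hcon i).le (hw i)) h2
  rw [← Finset.sum_mul, h1, one_mul] at h3
  linarith

/-- the complementary probability -/
theorem ss_eq {T : Type} [Fintype T] {K : ℕ} {ν : T → ℝ} (h1 : ∑ x, ν x = 1) (u : T → Fin (K + 1) → ℝ) (x y : T) :
    ∑ R : Fin K → T, W ν R * (if 0 < (fn u R ⬝ᵥ u x) * (fn u R ⬝ᵥ u y) then 1 else 0) = 1 - dd ν u x y := by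
  unfold dd
  rw [eq_sub_iff_add_eq, ← Finset.sum_add_distrib]
  refine Eq.trans (Finset.sum_congr rfl (fun R _ => ?_)) (sum_W h1 K)
  split_ifs <;> ring

open Classical in
theorem exists_fns {T : Type} [Fintype T] {K : ℕ} {ν : T → ℝ} (hν : ∀ x, 0 ≤ ν x) (h1 : ∑ x, ν x = 1)
    {u : T → Fin (K + 1) → ℝ} (hu : GenPos K u) (r : ℕ) :
    ∃ f : Fin r → Fin (K + 1) → ℝ, (∀ i, f i ≠ 0) ∧
      ∑ x, ∑ y, ν x * ν y * (if ∀ i, 0 < (f i ⬝ᵥ u x) * (f i ⬝ᵥ u y) then 1 else 0) ≤
        4 / ((K : ℝ) + 1) + 2 * √(((K : ℝ) + 2) * (K + 1) * ∑ y, ν y ^ 2) + (7 / 8) ^ r := by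
  have hW1 : ∑ R : Fin K → T, W ν R = 1 := sum_W h1 K
  have hW0 : ∀ R : Fin K → T, 0 ≤ W ν R := W_nonneg hν
  -- average over r-tuples of functionals
  have hprod : ∀ x y, ∑ RR : Fin r → (Fin K → T), W (W ν) RR *
      (if ∀ i, 0 < (fn u (RR i) ⬝ᵥ u x) * (fn u (RR i) ⬝ᵥ u y) then 1 else 0) = (1 - dd ν u x y) ^ r := by
    intro x y
    have h2 := Finset.prod_univ_sum (fun _ : Fin r => (univ : Finset (Fin K → T)))
      (fun _ R => W ν R * (if 0 < (fn u R ⬝ᵥ u x) * (fn u R ⬝ᵥ u y) then 1 else 0))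
    simp only [ss_eq h1, Finset.prod_const, Finset.card_univ, Fintype.card_fin, Fintype.piFinset_univ] at h2
    rw [h2]
    refine Finset.sum_congr rfl (fun RR _ => ?_)
    rw [Finset.prod_mul_distrib]
    unfold W
    congr 1
    by_cases h3 : ∀ i, 0 < (fn u (RR i) ⬝ᵥ u x) * (fn u (RR i) ⬝ᵥ u y)
    · rw [if_pos h3]
      exact (Finset.prod_eq_one fun i _ => if_pos (h3 i)).symm
    · rw [if_neg h3]
      push Not at h3
      obtain ⟨i, hi⟩ := h3
      exact (Finset.prod_eq_zero (mem_univ i) (if_neg (not_lt.2 hi))).symm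
  have havg : ∑ RR : Fin r → (Fin K → T), W (W ν) RR * (∑ x, ∑ y, ν x * ν y *
      (if ∀ i, 0 < (fn u (RR i) ⬝ᵥ u x) * (fn u (RR i) ⬝ᵥ u y) then 1 else 0)) =
      ∑ x, ∑ y, ν x * ν y * (1 - dd ν u x y) ^ r := by
    simp only [Finset.mul_sum]
    rw [Finset.sum_comm]
    refine Finset.sum_congr rfl (fun x _ => ?_)
    rw [Finset.sum_comm]
    refine Finset.sum_congr rfl (fun y _ => ?_)
    rw [← hprod x y, Finset.mul_sum]
    refine Finset.sum_congr rfl (fun RR _ => ?_)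
    ring
  have hbound : ∑ x, ∑ y, ν x * ν y * (1 - dd ν u x y) ^ r ≤
      4 / ((K : ℝ) + 1) + 2 * √(((K : ℝ) + 2) * (K + 1) * ∑ y, ν y ^ 2) + (7 / 8) ^ r := by
    set C := 4 / ((K : ℝ) + 1) + 2 * √(((K : ℝ) + 2) * (K + 1) * ∑ y, ν y ^ 2) with hC
    have h2 : ∀ x, ∑ y, ν x * ν y * (1 - dd ν u x y) ^ r ≤ ν x * (C + (7 / 8) ^ r) := by
      intro x
      have h3 : ∑ y, ν x * ν y * (1 - dd ν u x y) ^ r ≤
          ∑ y, ν x * (ν y * (if dd ν u x y < 1 / 8 then 1 else 0) + ν y * (7 / 8) ^ r) := by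
        refine Finset.sum_le_sum (fun y _ => ?_)
        rw [mul_assoc]
        refine mul_le_mul_of_nonneg_left ?_ (hν x)
        rw [← mul_add]
        refine mul_le_mul_of_nonneg_left ?_ (hν y)
        have h4 : dd ν u x y ≤ 1 := by
          have := ss_eq h1 u x y
          have h5 : 0 ≤ ∑ R : Fin K → T, W ν R * (if 0 < (fn u R ⬝ᵥ u x) * (fn u R ⬝ᵥ u y) then (1 : ℝ) else 0) :=
            Finset.sum_nonneg fun R _ => mul_nonneg (hW0 R) (by split_ifs <;> norm_num)
          linarith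
        have h5 := dd_nonneg hν u x y
        by_cases h6 : dd ν u x y < 1 / 8
        · rw [if_pos h6]
          have h7 : (1 - dd ν u x y) ^ r ≤ 1 := pow_le_one₀ (by linarith) (by linarith)
          have h8 : (0 : ℝ) ≤ (7 / 8) ^ r := by positivity
          linarith
        · rw [if_neg h6, zero_add]
          exact pow_le_pow_left₀ (by linarith) (by linarith) r
      refine h3.trans ?_
      rw [← Finset.mul_sum, Finset.sum_add_distrib, ← Finset.sum_mul, h1, one_mul]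
      refine mul_le_mul_of_nonneg_left ?_ (hν x)
      have := ball_mass hν h1 hu x
      linarith
    refine (Finset.sum_le_sum (fun x _ => h2 x)).trans ?_
    rw [← Finset.sum_mul, h1, one_mul]
  obtain ⟨RR, hRR⟩ := exists_le_avg (W (W ν)) (fun RR : Fin r → (Fin K → T) => ∑ x, ∑ y, ν x * ν y *
      (if ∀ i, 0 < (fn u (RR i) ⬝ᵥ u x) * (fn u (RR i) ⬝ᵥ u y) then 1 else 0))
    (fun RR => W_nonneg hW0 RR) (sum_W hW1 r) _ (havg.le.trans hbound)
  exact ⟨fun i => fn u (RR i), fun i => fn_ne u (RR i), hRR⟩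

end

end Pool.Agent.Helper89.PL
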