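import Pool.Agent.Helper89.PL.Fin
import Pool.Agent.Helper89.LS.Exact

/-! Polynomial partitioning, part 10: the lemma PL in the exact calculus. -/

namespace Pool.Agent.Helper89.PL

open Finset MvPolynomial Filter Topology
open Pool.Agent.Helper69.RK (pr res mass CH st_E1 st_E2 st_E3 st_E4)
open Pool.Agent.Helper31.EC
open Pool.Agent.Helper31.EC.Sp (VV io Bdd)
open Pool.Agent.Helper89.LS (ptv)

noncomputable section

/-- conditional entropies given a variable and the base -/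
theorem e_base (F : FSp) {α β : Type} (f : F.Ω → α) (g : F.Ω → β) :
    F.e (Setoid.ker f) (Setoid.ker g ⊓ F.Z) = CH F.μ f (fun ω => (g ω, Quotient.mk F.Z ω)) := by
  apply F.e_congr
  · intro ω ω' _ _
    exact Iff.rfl
  · intro ω ω' _ _
    rw [Prod.mk.injEq]
    constructor
    · intro h
      exact ⟨h.1, Quotient.sound h.2⟩
    · intro h
      exact ⟨h.1, Quotient.exact h.2⟩

/-- number of cells of a bounded scalar variable -/
theorem cell_count {Ω : Type} (μ : Ω → ℝ) (t : Ω → Fin 1 → ℝ) (C δ : ℝ)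
    (hC : 1 ≤ C) (hδ : 0 < δ) (hδ1 : δ ≤ 1) (hb : ∀ ω, μ ω ≠ 0 → |t ω 0| ≤ C) :
    ∃ T : Finset (Fin 1 → ℤ), (T.card : ℝ) ≤ 4 * C / δ ∧ ∀ ω, μ ω ≠ 0 → Sp.cell δ (t ω) ∈ T := by
  classical
  refine ⟨(Finset.Icc ⌊-C / δ⌋ ⌊C / δ⌋).image (fun z _ => z), ?_, fun ω hω => ?_⟩
  · have h1 : (((Finset.Icc ⌊-C / δ⌋ ⌊C / δ⌋).image (fun (z : ℤ) (_ : Fin 1) => z)).card : ℝ) ≤
        ((Finset.Icc ⌊-C / δ⌋ ⌊C / δ⌋).card : ℝ) := Nat.cast_le.2 Finset.card_image_le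
    refine h1.trans ?_
    rw [Int.card_Icc]
    have h2 : ⌊-C / δ⌋ ≤ ⌊C / δ⌋ := Int.floor_le_floor (by
      rw [div_le_div_iff_of_pos_right hδ]; linarith)
    have h3 : (((⌊C / δ⌋ + 1 - ⌊-C / δ⌋).toNat : ℕ) : ℝ) = (⌊C / δ⌋ : ℝ) + 1 - ⌊-C / δ⌋ := by
      have : (((⌊C / δ⌋ + 1 - ⌊-C / δ⌋).toNat : ℕ) : ℤ) = ⌊C / δ⌋ + 1 - ⌊-C / δ⌋ := Int.toNat_of_nonneg (by omega)
      exact_mod_cast this
    rw [h3]
    have h4 := Int.floor_le (C / δ)
    have h5 := Int.lt_floor_add_one (-C / δ)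
    have h6 : (1 : ℝ) ≤ C / δ := by rw [le_div_iff₀ hδ]; linarith
    have h7 : -C / δ = -(C / δ) := by ring
    have h8 : 4 * C / δ = 4 * (C / δ) := by ring
    rw [h7] at h5 ⊢
    rw [h8]
    linarith
  · rw [Finset.mem_image]
    refine ⟨Sp.cell δ (t ω) 0, ?_, ?_⟩
    · have h1 := abs_le.1 (hb ω hω)
      rw [Finset.mem_Icc]
      exact ⟨Int.floor_le_floor (by rw [div_le_div_iff_of_pos_right hδ]; exact h1.1),
        Int.floor_le_floor (by rw [div_le_div_iff_of_pos_right hδ]; exact h1.2)⟩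
    · funext i
      have hi : i = 0 := Subsingleton.elim _ _
      rw [hi]

theorem mass_not {Ω : Type} [Fintype Ω] (μ : Ω → ℝ) (E : Ω → Prop) (hμ : ∀ ω, 0 ≤ μ ω) (h1 : mass μ = 1) :
    mass (res μ (fun ω => ¬ E ω)) = 1 - mass (res μ E) := by
  have := ((st_E4 st_E1 st_E3).2.2 Ω μ E hμ).1
  rw [h1] at this
  linarith

theorem mass_nn {Ω : Type} [Fintype Ω] (μ : Ω → ℝ) (E : Ω → Prop) (hμ : ∀ ω, 0 ≤ μ ω) : 0 ≤ mass (res μ E) :=
  ((st_E4 st_E1 st_E3).2.2 Ω μ E hμ).2.1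

/-- the probability of the windows with breaks -/
theorem bad_bound {Ω γ : Type} [Fintype Ω] (μ : Ω → ℝ) (t : Ω → Fin 1 → ℝ) (g : Ω → γ) (Bad : Ω → Prop)
    (C δw B n w θ e0 : ℝ) (hμ : ∀ ω, 0 ≤ μ ω) (hμ1 : mass μ = 1) (hC : 1 ≤ C) (hδw : 0 < δw) (hδw1 : δw ≤ 1)
    (hn : 0 < n) (hθ : 0 < θ) (hb : ∀ ω, μ ω ≠ 0 → |t ω 0| ≤ C) (hδn : δw = 2 ^ (-(w * n)))
    (hB0 : 0 < B) (hB : B ≤ 2 ^ ((w - θ) * n))
    (hT : ∀ ω, ∃ T : Finset ℤ, (T.card : ℝ) ≤ 3 * B ∧ ∀ ω', g ω = g ω' → Bad ω' → Sp.cell δw (t ω') 0 ∈ T)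
    (he : CH μ (fun ω => Sp.cell δw (t ω)) g = e0 * n) :
    mass (res μ Bad) ≤ (w - e0 + (Real.logb 2 (12 * C) + 1) / n) / θ := by
  classical
  have h1 := ch_event μ (fun ω => Sp.cell δw (t ω)) g Bad (3 * B) (4 * C / δw) hμ hμ1
    (fun ω _ _ => by
      obtain ⟨T, hT1, hT2⟩ := hT ω
      refine ⟨T.image (fun z _ => z), (Nat.cast_le.2 Finset.card_image_le).trans hT1, fun ω' _ h h' => ?_⟩
      rw [Finset.mem_image]
      refine ⟨_, hT2 ω' h'.symm h, ?_⟩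
      funext i
      have hi : i = 0 := Subsingleton.elim _ _
      rw [hi])
    (fun ω _ _ => by
      obtain ⟨T, hT1, hT2⟩ := cell_count μ t C δw hC hδw hδw1 hb
      exact ⟨T, hT1, fun ω' h _ _ => hT2 ω' h⟩)
  rw [mass_not μ Bad hμ hμ1] at h1
  set b := mass (res μ Bad) with hbd
  have hb0 : 0 ≤ b := mass_nn μ Bad hμ
  have hb1 : b ≤ 1 := by
    have := mass_nn μ (fun ω => ¬ Bad ω) hμ
    rw [mass_not μ Bad hμ hμ1] at this
    linarith
  have h2 : Real.logb 2 (3 * B) ≤ Real.logb 2 3 + (w - θ) * n := by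
    rw [Real.logb_mul (by norm_num) hB0.ne']
    have h3 : Real.logb 2 B ≤ Real.logb 2 (2 ^ ((w - θ) * n)) := Real.logb_le_logb_of_le (by norm_num) hB0 hB
    rw [Real.logb_rpow (by norm_num) (by norm_num)] at h3
    linarith
  have h3 : Real.logb 2 (4 * C / δw) = Real.logb 2 (4 * C) + w * n := by
    rw [hδn, Real.rpow_neg (by norm_num), div_inv_eq_mul, Real.logb_mul (by positivity) (by positivity),
      Real.logb_rpow (by norm_num) (by norm_num)]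
  have h4 : Real.logb 2 3 ≤ Real.logb 2 (12 * C) := Real.logb_le_logb_of_le (by norm_num) (by norm_num) (by linarith)
  have h5 : Real.logb 2 (4 * C) ≤ Real.logb 2 (12 * C) :=
    Real.logb_le_logb_of_le (by norm_num) (by linarith) (by linarith)
  rw [h3, he] at h1
  have h6 : b * Real.logb 2 (3 * B) ≤ b * (Real.logb 2 (12 * C) + (w - θ) * n) :=
    mul_le_mul_of_nonneg_left (by linarith) hb0
  have h7 : (1 - b) * (Real.logb 2 (4 * C) + w * n) ≤ (1 - b) * (Real.logb 2 (12 * C) + w * n) :=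
    mul_le_mul_of_nonneg_left (by linarith) (by linarith)
  have h8 : b * (θ * n) ≤ (w - e0) * n + (Real.logb 2 (12 * C) + 1) := by
    nlinarith
  rw [le_div_iff₀ hθ]
  have h9 : (w - e0 + (Real.logb 2 (12 * C) + 1) / n) = ((w - e0) * n + (Real.logb 2 (12 * C) + 1)) / n := by
    field_simp
  rw [h9, le_div_iff₀ hn]
  linarith

/-- the label is a function of the line and the window, up to the stopping index -/
theorem label_bound {Ω γ : Type} [Fintype Ω] {r : ℕ} (μ : Ω → ℝ) (t : Ω → Fin 1 → ℝ) (g : Ω → γ) (Bad : Ω → Prop)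
    (V W : Ω → List (Fin r → SignType)) (L : ℕ) (C δ n : ℝ) (hμ : ∀ ω, 0 ≤ μ ω) (hμ1 : mass μ = 1) (hC : 1 ≤ C)
    (hδ : 0 < δ) (hδ1 : δ ≤ 1) (hb : ∀ ω, μ ω ≠ 0 → |t ω 0| ≤ C) (hδn : δ = 2 ^ (-(1 * n)))
    (hV : ∀ ω, (V ω).length ≤ L ∧ (μ ω ≠ 0 → V ω = (W ω).drop (L - (V ω).length)))
    (hW : ∀ ω ω', g ω = g ω' → Sp.cell δ (t ω) = Sp.cell δ (t ω') → W ω = W ω')
    (hW' : ∀ ω ω', g ω = g ω' → ¬ Bad ω → W ω = W ω') :
    CH μ V g ≤ mass (res μ Bad) * (n + Real.logb 2 (4 * C)) + 2 * Real.logb 2 (L + 1) + 1 := by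
  classical
  have h1 := ch_event μ V g Bad ((L + 1) * (4 * C / δ)) (L + 1) hμ hμ1
    (fun ω _ _ => by
      obtain ⟨T, hT1, hT2⟩ := cell_count μ t C δ hC hδ hδ1 hb
      refine ⟨(range (L + 1) ×ˢ T).image (fun q : ℕ × (Fin 1 → ℤ) =>
          if h : ∃ ω', g ω' = g ω ∧ μ ω' ≠ 0 ∧ (V ω').length = q.1 ∧ Sp.cell δ (t ω') = q.2 then V h.choose else []),
        ?_, fun ω' hω' _ hg => ?_⟩
      · refine (Nat.cast_le.2 Finset.card_image_le).trans ?_
        rw [Finset.card_product, Finset.card_range]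
        push_cast
        exact mul_le_mul_of_nonneg_left hT1 (by positivity)
      · rw [Finset.mem_image]
        refine ⟨((V ω').length, Sp.cell δ (t ω')), ?_, ?_⟩
        · rw [Finset.mem_product]
          exact ⟨Finset.mem_range.2 (Nat.lt_succ_of_le (hV ω').1), hT2 ω' hω'⟩
        · have hex : ∃ ω₁, g ω₁ = g ω ∧ μ ω₁ ≠ 0 ∧ (V ω₁).length = (V ω').length ∧
              Sp.cell δ (t ω₁) = Sp.cell δ (t ω') := ⟨ω', hg, hω', rfl, rfl⟩
          beta_reduce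
          rw [dif_pos hex]
          obtain ⟨e0, e1, e2, e3⟩ := hex.choose_spec
          refine ((hV _).2 e1).trans (Eq.trans ?_ ((hV ω').2 hω').symm)
          rw [e2, hW _ _ (e0.trans hg.symm) e3])
    (fun ω _ _ => by
      refine ⟨(range (L + 1)).image (fun q : ℕ =>
          if h : ∃ ω', g ω' = g ω ∧ μ ω' ≠ 0 ∧ ¬ Bad ω' ∧ (V ω').length = q then V h.choose else []),
        ?_, fun ω' hω' hbad hg => ?_⟩
      · refine (Nat.cast_le.2 Finset.card_image_le).trans ?_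
        rw [Finset.card_range]
        push_cast
        exact le_rfl
      · rw [Finset.mem_image]
        refine ⟨(V ω').length, Finset.mem_range.2 (Nat.lt_succ_of_le (hV ω').1), ?_⟩
        have hex : ∃ ω₁, g ω₁ = g ω ∧ μ ω₁ ≠ 0 ∧ ¬ Bad ω₁ ∧ (V ω₁).length = (V ω').length := ⟨ω', hg, hω', hbad, rfl⟩
        beta_reduce
        rw [dif_pos hex]
        obtain ⟨e0, e1, e2, e3⟩ := hex.choose_spec
        refine ((hV _).2 e1).trans (Eq.trans ?_ ((hV ω').2 hω').symm)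
        rw [e3, hW' _ _ (e0.trans hg.symm) e2])
  have hb0 : 0 ≤ mass (res μ Bad) := mass_nn μ Bad hμ
  have hb1 : mass (res μ (fun ω => ¬ Bad ω)) ≤ 1 := by
    rw [mass_not μ Bad hμ hμ1]; linarith
  have hb2 : 0 ≤ mass (res μ (fun ω => ¬ Bad ω)) := mass_nn μ _ hμ
  have hb3 : mass (res μ Bad) ≤ 1 := by
    rw [mass_not μ Bad hμ hμ1] at hb2; linarith
  have hL : 0 ≤ Real.logb 2 ((L : ℝ) + 1) := Real.logb_nonneg (by norm_num) (by
    have : (0 : ℝ) ≤ L := Nat.cast_nonneg L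
    linarith)
  have h2 : Real.logb 2 (((L : ℝ) + 1) * (4 * C / δ)) = Real.logb 2 (L + 1) + (n + Real.logb 2 (4 * C)) := by
    have h3 : 4 * C / δ = 4 * C * 2 ^ (n : ℝ) := by
      rw [hδn, Real.rpow_neg (by norm_num), div_inv_eq_mul, one_mul]
    rw [h3, Real.logb_mul (by positivity) (by positivity), Real.logb_mul (by positivity) (by positivity),
      Real.logb_rpow (by norm_num) (by norm_num)]
    ring
  rw [h2] at h1
  nlinarith

end

end Pool.Agent.Helper89.PL
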