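import Pool.Agent.Helper89.PL.Core

/-! Polynomial partitioning, part 8: boxes, stopping. -/

namespace Pool.Agent.Helper89.PL

open Finset MvPolynomial

noncomputable section

/-- some polynomial of the node of depth `j` of `c` has a zero in the box of radius `ρ` around `c` -/
def hit {N r : ℕ} (Q : List (Fin r → SignType) → Fin r → MvPolynomial (Fin N) ℝ) (c : Fin N → ℝ) (ρ : ℝ) (j : ℕ) :
    Prop := ∃ i, ∃ q : Fin N → ℝ, (∀ l, |q l - c l| ≤ ρ) ∧ eval q (Q (node Q j c) i) = 0

open Classical in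
/-- the stopping depth -/
def stp {N r : ℕ} (Q : List (Fin r → SignType) → Fin r → MvPolynomial (Fin N) ℝ) (L : ℕ) (c : Fin N → ℝ) (ρ : ℝ) : ℕ :=
  if h : ∃ j, j < L ∧ hit Q c ρ j then Nat.find h else L

theorem stp_le {N r : ℕ} (Q : List (Fin r → SignType) → Fin r → MvPolynomial (Fin N) ℝ) (L : ℕ) (c : Fin N → ℝ)
    (ρ : ℝ) : stp Q L c ρ ≤ L := by
  classical
  unfold stp
  split_ifs with h
  · exact (Nat.find_spec h).1.le
  · exact le_rfl

theorem stp_hit {N r : ℕ} (Q : List (Fin r → SignType) → Fin r → MvPolynomial (Fin N) ℝ) (L : ℕ) (c : Fin N → ℝ)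
    (ρ : ℝ) (h : stp Q L c ρ < L) : hit Q c ρ (stp Q L c ρ) := by
  classical
  unfold stp at h ⊢
  split_ifs at h ⊢ with h1
  · exact (Nat.find_spec h1).2
  · exact absurd h (lt_irrefl L)

theorem not_hit {N r : ℕ} (Q : List (Fin r → SignType) → Fin r → MvPolynomial (Fin N) ℝ) (L : ℕ) (c : Fin N → ℝ)
    (ρ : ℝ) (j : ℕ) (h : j < stp Q L c ρ) : ¬ hit Q c ρ j := by
  classical
  intro hj
  have hL := stp_le Q L c ρ
  unfold stp at h hL
  split_ifs at h with h1
  · have := Nat.find_min h1 h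
    exact this ⟨by have := (Nat.find_spec h1).1; omega, hj⟩
  · exact h1 ⟨j, h, hj⟩

/-- the sign of a polynomial without zeros in a box -/
theorem sign_box {N : ℕ} (q : MvPolynomial (Fin N) ℝ) (c p : Fin N → ℝ) (ρ : ℝ) (hp : ∀ l, |p l - c l| ≤ ρ)
    (hno : ∀ y : Fin N → ℝ, (∀ l, |y l - c l| ≤ ρ) → eval y q ≠ 0) :
    SignType.sign (eval c q) = SignType.sign (eval p q) := by
  obtain ⟨P, _, hP⟩ := exists_line q c (fun l => p l - c l)
  have h0 : P.eval 0 = eval c q := by
    rw [hP]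
    congr 1
    simp
  have h1 : P.eval 1 = eval p q := by
    rw [hP]
    congr 1
    simp
  rw [← h0, ← h1]
  refine sign_const zero_le_one (fun s hs0 hs1 => ?_)
  rw [hP]
  refine hno _ (fun l => ?_)
  have h2 : c l + s * (p l - c l) - c l = s * (p l - c l) := by ring
  rw [h2, abs_mul, abs_of_nonneg hs0]
  calc s * |p l - c l| ≤ 1 * |p l - c l| := mul_le_mul_of_nonneg_right hs1 (abs_nonneg _)
    _ ≤ ρ := by rw [one_mul]; exact hp l

/-- up to the stopping depth the path of nodes is the same in the whole box -/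
theorem node_box {N r : ℕ} (Q : List (Fin r → SignType) → Fin r → MvPolynomial (Fin N) ℝ) (L : ℕ) (c p : Fin N → ℝ)
    (ρ : ℝ) (hp : ∀ l, |p l - c l| ≤ ρ) (j : ℕ) (hj : j ≤ stp Q L c ρ) : node Q j p = node Q j c := by
  induction j with
  | zero => rfl
  | succ j ih =>
    have h1 := ih (by omega)
    rw [node, node, h1]
    congr 1
    funext i
    unfold sg
    refine (sign_box _ c p ρ hp (fun y hy h0 => ?_)).symm
    exact not_hit Q L c ρ j (by omega) ⟨i, y, hy, h0⟩

/-- points of boxes that are not stopped -/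
theorem un_box {N r : ℕ} (Q : List (Fin r → SignType) → Fin r → MvPolynomial (Fin N) ℝ) (L : ℕ) (c p : Fin N → ℝ)
    (ρ : ℝ) (hp : ∀ l, |p l - c l| ≤ ρ) (h : stp Q L c ρ = L) : un Q L p := by
  intro j hj i h0
  rw [node_box Q L c p ρ hp j (by omega)] at h0
  exact not_hit Q L c ρ j (by omega) ⟨i, p, hp, h0⟩

/-- the product of the polynomials of a node -/
def prd {N r : ℕ} (q : Fin r → MvPolynomial (Fin N) ℝ) : MvPolynomial (Fin N) ℝ := ∏ i, q i

theorem prd_ne {N r : ℕ} {q : Fin r → MvPolynomial (Fin N) ℝ} (h : ∀ i, q i ≠ 0) : prd q ≠ 0 := by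
  unfold prd
  rw [Finset.prod_ne_zero_iff]
  exact fun i _ => h i

theorem prd_deg {N r D : ℕ} {q : Fin r → MvPolynomial (Fin N) ℝ} (h : ∀ i, (q i).totalDegree ≤ D) :
    (prd q).totalDegree ≤ r * D := by
  unfold prd
  refine (totalDegree_finset_prod _ _).trans ?_
  refine (Finset.sum_le_card_nsmul _ _ D (fun i _ => h i)).trans (le_of_eq ?_)
  rw [Finset.card_univ, Fintype.card_fin, smul_eq_mul]

theorem prd_zero {N r : ℕ} {q : Fin r → MvPolynomial (Fin N) ℝ} (i : Fin r) (y : Fin N → ℝ) (h : eval y (q i) = 0) :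
    eval y (prd q) = 0 := by
  unfold prd
  rw [map_prod]
  exact Finset.prod_eq_zero (mem_univ i) h

end

end Pool.Agent.Helper89.PL
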