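import Pool.Agent.Helper31.EC.Dig

/-! Collision mass and entropy; entropy with an event. -/

namespace Pool.Agent.Helper89.PL

open Finset
open Pool.Agent.Helper69.RK

noncomputable section

open Classical in
/-- a weak form of Renyi 2 below Shannon, conditional on `Z`, for a part `ν ≤ μ` of a probability measure -/
theorem coll_ch {Ω α γ : Type} [Fintype Ω] (ν μ : Ω → ℝ) (V : Ω → α) (Z : Ω → γ) (κ : ℝ) (hν : ∀ ω, 0 ≤ ν ω)
    (hνμ : ∀ ω, ν ω ≤ μ ω) (hμ1 : mass μ = 1) (hκ : 0 < κ) (hu : 0 < mass ν)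
    (hc : ∀ ω0, ∑ ω, ∑ ω', (if Z ω = Z ω0 ∧ Z ω' = Z ω0 ∧ V ω = V ω' then ν ω * ν ω' else 0) ≤
      κ * (pr μ Z ω0) ^ 2) :
    mass ν * Real.logb 2 (1 / κ) - 2 * mass ν * Real.logb 2 (1 / mass ν) ≤ CH ν V Z := by
  set u := mass ν with hudef
  set A : Ω → ℝ := pr ν Z with hA
  set M : Ω → ℝ := pr μ Z with hM
  set B : Ω → ℝ := pr ν (fun ω' => (V ω', Z ω')) with hB
  have hμ : ∀ ω, 0 ≤ μ ω := fun ω => (hν ω).trans (hνμ ω)
  have hge : ∀ {β : Type} (g : Ω → β) (ρ : Ω → ℝ), (∀ ω, 0 ≤ ρ ω) → ∀ ω, ρ ω ≤ pr ρ g ω := by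
    intro β g ρ hρ ω
    unfold pr
    refine le_trans (le_of_eq (if_pos rfl).symm) (Finset.single_le_sum
      (f := fun ω' : Ω => if g ω' = g ω then ρ ω' else 0) (fun ω' _ => ?_) (mem_univ ω))
    split_ifs
    · exact hρ _
    · exact le_rfl
  have hAM : ∀ ω, A ω ≤ M ω := by
    intro ω
    rw [hA, hM]
    unfold pr
    refine Finset.sum_le_sum (fun ω' _ => ?_)
    split_ifs
    · exact hνμ _
    · exact le_rfl
  have hAc : ∀ {ω ω'}, Z ω = Z ω' → A ω = A ω' := by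
    intro ω ω' h
    rw [hA]
    unfold pr
    simp only [h]
  have hMc : ∀ {ω ω'}, Z ω = Z ω' → M ω = M ω' := by
    intro ω ω' h
    rw [hM]
    unfold pr
    simp only [h]
  have hA0 : ∀ ω, 0 ≤ A ω := fun ω => by
    rw [hA]
    unfold pr
    exact Finset.sum_nonneg fun ω' _ => by
      split_ifs
      · exact hν _
      · exact le_rfl
  have hM0 : ∀ ω, 0 ≤ M ω := fun ω => (hA0 ω).trans (hAM ω)
  have hl2 : 0 < Real.log 2 := Real.log_pos (by norm_num)
  -- pointwise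
  have hpt : ∀ ω, ν ω * (Real.logb 2 (1 / κ) - 2 * Real.logb 2 (1 / u)) -
      (ν ω * (B ω * A ω / (κ * M ω ^ 2) - 1) + 2 * (ν ω * (u * (M ω / A ω) - 1))) / Real.log 2 ≤
      ν ω * (Real.logb 2 (A ω) - Real.logb 2 (B ω)) := by
    intro ω
    rcases (hν ω).eq_or_lt with h0 | hpos
    · rw [← h0]; simp
    · have hA' : 0 < A ω := lt_of_lt_of_le hpos (hge Z ν hν ω)
      have hM' : 0 < M ω := lt_of_lt_of_le hA' (hAM ω)
      have hB' : 0 < B ω := lt_of_lt_of_le hpos (hge _ ν hν ω)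
      set c : ℝ := κ * M ω ^ 2 / A ω with hcdef
      have hc0 : 0 < c := by rw [hcdef]; positivity
      have h1 : Real.log (B ω) ≤ Real.log c + (B ω / c - 1) := by
        have h2 := Real.log_le_sub_one_of_pos (div_pos hB' hc0)
        rw [Real.log_div hB'.ne' hc0.ne'] at h2
        linarith
      have h2 : Real.log (M ω / A ω) ≤ Real.log (1 / u) + (u * (M ω / A ω) - 1) := by
        have h3 := Real.log_le_sub_one_of_pos (mul_pos hu (div_pos hM' hA'))
        rw [Real.log_mul hu.ne' (div_pos hM' hA').ne'] at h3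
        have h4 : Real.log (1 / u) = - Real.log u := by rw [one_div, Real.log_inv]
        rw [h4]
        linarith
      have h3 : Real.log c = Real.log κ + 2 * Real.log (M ω) - Real.log (A ω) := by
        rw [hcdef, Real.log_div (by positivity) hA'.ne', Real.log_mul hκ.ne' (by positivity), Real.log_pow]
        push_cast
        ring
      have h4 : B ω / c = B ω * A ω / (κ * M ω ^ 2) := by
        rw [hcdef]
        field_simp
      have h5 : Real.log (M ω / A ω) = Real.log (M ω) - Real.log (A ω) := Real.log_div hM'.ne' hA'.ne'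
      have h6 : Real.log (1 / κ) = - Real.log κ := by rw [one_div, Real.log_inv]
      have key : Real.log (1 / κ) - 2 * Real.log (1 / u) - (B ω * A ω / (κ * M ω ^ 2) - 1) -
          2 * (u * (M ω / A ω) - 1) ≤ Real.log (A ω) - Real.log (B ω) := by
        rw [h4] at h1
        rw [h5] at h2
        rw [h6]
        rw [h3] at h1
        linarith
      have h7 := div_le_div_of_nonneg_right key hl2.le
      have h8 : (Real.log (A ω) - Real.log (B ω)) / Real.log 2 = Real.logb 2 (A ω) - Real.logb 2 (B ω) := by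
        rw [sub_div]; rfl
      have h9 : (Real.log (1 / κ) - 2 * Real.log (1 / u) - (B ω * A ω / (κ * M ω ^ 2) - 1) -
          2 * (u * (M ω / A ω) - 1)) / Real.log 2 = (Real.logb 2 (1 / κ) - 2 * Real.logb 2 (1 / u)) -
          ((B ω * A ω / (κ * M ω ^ 2) - 1) + 2 * (u * (M ω / A ω) - 1)) / Real.log 2 := by
        have e1 : Real.logb 2 (1 / κ) = Real.log (1 / κ) / Real.log 2 := rfl
        have e2 : Real.logb 2 (1 / u) = Real.log (1 / u) / Real.log 2 := rfl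
        rw [e1, e2]
        ring
      rw [h8, h9] at h7
      have h10 := mul_le_mul_of_nonneg_left h7 hpos.le
      refine le_trans (le_of_eq ?_) h10
      ring
  -- first sum
  have hs1 : ∑ ω, ν ω * (B ω * A ω / (κ * M ω ^ 2) - 1) ≤ 0 := by
    have h1 : ∑ ω, ν ω * (B ω * A ω / (κ * M ω ^ 2)) =
        ∑ ω1, ν ω1 / (κ * M ω1 ^ 2) *
          ∑ ω, ∑ ω', (if Z ω = Z ω1 ∧ Z ω' = Z ω1 ∧ V ω = V ω' then ν ω * ν ω' else 0) := by
      have h2 : ∀ ω, ν ω * (B ω * A ω / (κ * M ω ^ 2)) =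
          ∑ ω1, ∑ ω', ν ω1 / (κ * M ω1 ^ 2) *
            (if Z ω = Z ω1 ∧ Z ω' = Z ω1 ∧ V ω = V ω' then ν ω * ν ω' else 0) := by
        intro ω
        have h3 : A ω = ∑ ω1, if Z ω1 = Z ω then ν ω1 else 0 := rfl
        have h4 : B ω = ∑ ω', if (V ω' = V ω ∧ Z ω' = Z ω) then ν ω' else 0 := by
          rw [hB]
          unfold pr
          refine Finset.sum_congr rfl (fun ω' _ => ?_)
          by_cases hv : V ω' = V ω ∧ Z ω' = Z ω
          · rw [if_pos hv, if_pos (by rw [Prod.mk.injEq]; exact hv)]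
          · rw [if_neg hv, if_neg (by rw [Prod.mk.injEq]; exact hv)]
        have h5 : ν ω * (B ω * A ω / (κ * M ω ^ 2)) = (ν ω / (κ * M ω ^ 2)) * (A ω * B ω) := by ring
        rw [h5, h3, h4, Finset.sum_mul_sum, Finset.mul_sum]
        refine Finset.sum_congr rfl (fun ω1 _ => ?_)
        rw [Finset.mul_sum]
        refine Finset.sum_congr rfl (fun ω' _ => ?_)
        by_cases hz : Z ω1 = Z ω
        · rw [if_pos hz, hMc hz]
          by_cases hv : V ω' = V ω ∧ Z ω' = Z ω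
          · rw [if_pos hv, if_pos ⟨hz.symm, hv.2.trans hz.symm, hv.1.symm⟩]
            ring
          · rw [if_neg hv, if_neg (fun h => hv ⟨h.2.2.symm, h.2.1.trans hz⟩)]
            ring
        · rw [if_neg hz, zero_mul, mul_zero, if_neg (fun h => hz h.1.symm), mul_zero]
      rw [Finset.sum_congr rfl (fun ω _ => h2 ω), Finset.sum_comm]
      refine Finset.sum_congr rfl (fun ω1 _ => ?_)
      rw [Finset.mul_sum]
      refine Finset.sum_congr rfl (fun ω _ => ?_)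
      rw [Finset.mul_sum]
    have h2 : ∑ ω, ν ω * (B ω * A ω / (κ * M ω ^ 2)) ≤ ∑ ω, ν ω := by
      rw [h1]
      refine Finset.sum_le_sum (fun ω1 _ => ?_)
      rcases (hν ω1).eq_or_lt with h0 | hpos
      · rw [← h0]; simp
      · have hM' : 0 < M ω1 := lt_of_lt_of_le hpos ((hge Z ν hν ω1).trans (hAM ω1))
        have h3 := hc ω1
        have h4 : 0 < κ * M ω1 ^ 2 := by positivity
        calc ν ω1 / (κ * M ω1 ^ 2) *
              ∑ ω, ∑ ω', (if Z ω = Z ω1 ∧ Z ω' = Z ω1 ∧ V ω = V ω' then ν ω * ν ω' else 0)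
            ≤ ν ω1 / (κ * M ω1 ^ 2) * (κ * M ω1 ^ 2) := mul_le_mul_of_nonneg_left h3 (by positivity)
          _ = ν ω1 := div_mul_cancel₀ _ h4.ne'
    have h3 : ∑ ω, ν ω * (B ω * A ω / (κ * M ω ^ 2) - 1) =
        ∑ ω, ν ω * (B ω * A ω / (κ * M ω ^ 2)) - ∑ ω, ν ω := by
      rw [← Finset.sum_sub_distrib]
      exact Finset.sum_congr rfl (fun ω _ => by ring)
    rw [h3]
    linarith
  -- second sum
  have hs2 : ∑ ω, ν ω * (u * (M ω / A ω) - 1) ≤ 0 := by
    have h1 : ∑ ω, ν ω * (M ω / A ω) ≤ 1 := by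
      have h2 : ∀ ω, ν ω * (M ω / A ω) = ∑ ω', (if Z ω' = Z ω then μ ω' * (ν ω / A ω) else 0) := by
        intro ω
        have h3 : M ω = ∑ ω', if Z ω' = Z ω then μ ω' else 0 := rfl
        have h4 : ν ω * (M ω / A ω) = M ω * (ν ω / A ω) := by ring
        rw [h4, h3, Finset.sum_mul]
        refine Finset.sum_congr rfl (fun ω' _ => ?_)
        split_ifs
        · rfl
        · ring
      rw [Finset.sum_congr rfl (fun ω _ => h2 ω), Finset.sum_comm, ← hμ1]
      unfold mass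
      refine Finset.sum_le_sum (fun ω' _ => ?_)
      have h3 : ∑ ω, (if Z ω' = Z ω then μ ω' * (ν ω / A ω) else 0) =
          μ ω' * (A ω' / A ω') := by
        have h4 : A ω' = ∑ ω, if Z ω = Z ω' then ν ω else 0 := rfl
        have h5 : A ω' / A ω' = ∑ ω, (if Z ω = Z ω' then ν ω else 0) / A ω' := by
          rw [← Finset.sum_div]
          exact congrArg (fun y => y / A ω') h4
        rw [h5, Finset.mul_sum]
        refine Finset.sum_congr rfl (fun ω _ => ?_)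
        by_cases hz : Z ω = Z ω'
        · rw [if_pos hz, if_pos hz.symm, hAc hz]
        · rw [if_neg hz, if_neg (fun h => hz h.symm)]
          ring
      rw [h3]
      have h4 : A ω' / A ω' ≤ 1 := div_self_le_one _
      calc μ ω' * (A ω' / A ω') ≤ μ ω' * 1 := mul_le_mul_of_nonneg_left h4 (hμ ω')
        _ = μ ω' := mul_one _
    have h3 : ∑ ω, ν ω * (u * (M ω / A ω) - 1) = u * ∑ ω, ν ω * (M ω / A ω) - ∑ ω, ν ω := by
      rw [Finset.mul_sum, ← Finset.sum_sub_distrib]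
      exact Finset.sum_congr rfl (fun ω _ => by ring)
    have h4 : ∑ ω, ν ω = u := rfl
    rw [h3, h4]
    nlinarith
  -- conclusion
  have hsum := Finset.sum_le_sum (fun ω (_ : ω ∈ (univ : Finset Ω)) => hpt ω)
  have h1 : ∑ ω, (ν ω * (Real.logb 2 (1 / κ) - 2 * Real.logb 2 (1 / u)) -
      (ν ω * (B ω * A ω / (κ * M ω ^ 2) - 1) + 2 * (ν ω * (u * (M ω / A ω) - 1))) / Real.log 2) =
      u * (Real.logb 2 (1 / κ) - 2 * Real.logb 2 (1 / u)) -
      (∑ ω, ν ω * (B ω * A ω / (κ * M ω ^ 2) - 1) + 2 * ∑ ω, ν ω * (u * (M ω / A ω) - 1)) / Real.log 2 := by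
    rw [Finset.sum_sub_distrib, ← Finset.sum_mul, ← Finset.sum_div, Finset.sum_add_distrib, ← Finset.mul_sum]
    rfl
  rw [h1] at hsum
  have h2 : (∑ ω, ν ω * (B ω * A ω / (κ * M ω ^ 2) - 1) + 2 * ∑ ω, ν ω * (u * (M ω / A ω) - 1)) / Real.log 2 ≤ 0 :=
    div_nonpos_of_nonpos_of_nonneg (by linarith) hl2.le
  have h3 : CH ν V Z = ∑ ω, ν ω * (Real.logb 2 (A ω) - Real.logb 2 (B ω)) := rfl
  rw [h3]
  linarith

/-- entropy with an event: numbers of values on the event and off it -/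
theorem ch_event {Ω α γ : Type} [Fintype Ω] (μ : Ω → ℝ) (f : Ω → α) (g : Ω → γ) (E : Ω → Prop) (N1 N2 : ℝ)
    (hμ : ∀ ω, 0 ≤ μ ω) (hμ1 : mass μ = 1)
    (h1 : ∀ ω, μ ω ≠ 0 → E ω → ∃ T : Finset α, (T.card : ℝ) ≤ N1 ∧
      ∀ ω', μ ω' ≠ 0 → E ω' → g ω' = g ω → f ω' ∈ T)
    (h2 : ∀ ω, μ ω ≠ 0 → ¬ E ω → ∃ T : Finset α, (T.card : ℝ) ≤ N2 ∧
      ∀ ω', μ ω' ≠ 0 → ¬ E ω' → g ω' = g ω → f ω' ∈ T) :
    CH μ f g ≤ mass (res μ E) * Real.logb 2 N1 + mass (res μ (fun ω => ¬ E ω)) * Real.logb 2 N2 + 1 := by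
  classical
  have hE4 := st_E4 st_E1 st_E3
  have h3 := (hE4.2.1 Ω _ _ μ f g E hμ).2
  rw [hμ1] at h3
  obtain ⟨_, _, h4⟩ := hE4.2.2 Ω μ E hμ
  obtain ⟨_, _, h4'⟩ := hE4.2.2 Ω μ (fun ω => ¬ E ω) hμ
  have hsum : ∀ (D : Ω → Prop) (N : ℝ), ∑ ω, res μ D ω * Real.logb 2 N = mass (res μ D) * Real.logb 2 N := by
    intro D N
    rw [← Finset.sum_mul]
    rfl
  have r1 : ∀ (D : Ω → Prop) (ω : Ω), res μ D ω ≠ 0 ↔ (μ ω ≠ 0 ∧ D ω) := by
    intro D ω
    unfold res
    by_cases hD : D ω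
    · rw [if_pos hD]
      exact ⟨fun h => ⟨h, hD⟩, fun h => h.1⟩
    · rw [if_neg hD]
      exact ⟨fun h => absurd rfl h, fun h => absurd h.2 hD⟩
  have h5 := st_E3.1 Ω α γ (res μ E) f g (fun _ => N1) h4 (fun ω hω => by
    have h6 := (r1 E ω).1 hω
    obtain ⟨T, hT1, hT2⟩ := h1 ω h6.1 h6.2
    refine le_trans (Nat.cast_le.2 (Finset.card_le_card ?_)) hT1
    intro q hq
    rw [Finset.mem_image] at hq
    obtain ⟨ω', hω', rfl⟩ := hq
    rw [Finset.mem_filter] at hω'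
    have h7 := (r1 E ω').1 hω'.2.1
    exact hT2 ω' h7.1 h7.2 hω'.2.2)
  have h6 := st_E3.1 Ω α γ (res μ (fun ω => ¬ E ω)) f g (fun _ => N2) h4' (fun ω hω => by
    have h6 := (r1 _ ω).1 hω
    obtain ⟨T, hT1, hT2⟩ := h2 ω h6.1 h6.2
    refine le_trans (Nat.cast_le.2 (Finset.card_le_card ?_)) hT1
    intro q hq
    rw [Finset.mem_image] at hq
    obtain ⟨ω', hω', rfl⟩ := hq
    rw [Finset.mem_filter] at hω'
    have h7 := (r1 _ ω').1 hω'.2.1
    exact hT2 ω' h7.1 h7.2 hω'.2.2)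
  rw [hsum] at h5 h6
  linarith

end

end Pool.Agent.Helper89.PL
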