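import Pool.Agent.Helper89.PL.Tree

/-! Polynomial partitioning without topology, part 7: choice of the parameters, final statement. -/

namespace Pool.Agent.Helper89.PL

open Finset MvPolynomial

noncomputable section

/-- choice of the parameters -/
theorem exists_param (N : ℕ) (hN : 1 ≤ N) (η : ℝ) (hη : 0 < η) :
    ∃ d r : ℕ, 1 ≤ d ∧ 1 ≤ r ∧
      4 / ((d : ℝ) + 1) ^ N + (7 / 8) ^ r ≤ ((r : ℝ) * (N * d : ℕ) + 1) ^ (-((N : ℝ) - η)) := by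
  -- reduction to `η ≤ 1`
  set η' : ℝ := min η 1 with hη'
  have hη'0 : 0 < η' := lt_min hη one_pos
  have hη'1 : η' ≤ 1 := min_le_right _ _
  have hη'η : η' ≤ η := min_le_left _ _
  have hNr : (1 : ℝ) ≤ N := by exact_mod_cast hN
  -- growth
  set C : ℝ := 5 * (6 * (N : ℝ) ^ 2) ^ N with hC
  have hC0 : 0 < C := by positivity
  have hlim : Filter.Tendsto (fun k : ℕ => (k : ℝ) ^ N / ((2 : ℝ) ^ η') ^ k) Filter.atTop (nhds 0) :=
    tendsto_pow_const_div_const_pow_of_one_lt N (Real.one_lt_rpow (by norm_num) hη'0)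
  have hlim2 := (hlim.const_mul C)
  rw [mul_zero] at hlim2
  obtain ⟨k0, hk0⟩ := Filter.eventually_atTop.1 (hlim2.eventually (gt_mem_nhds one_pos))
  set k : ℕ := max k0 1 with hk
  have hk1 : 1 ≤ k := le_max_right _ _
  have hkr : (1 : ℝ) ≤ k := by exact_mod_cast hk1
  have hkk := hk0 k (le_max_left _ _)
  have h2k : (2 : ℝ) ≤ 2 ^ k := by
    calc (2 : ℝ) = 2 ^ 1 := by norm_num
      _ ≤ 2 ^ k := pow_le_pow_right₀ (by norm_num) hk1
  have h2kn : 2 ≤ 2 ^ k := by exact_mod_cast h2k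
  refine ⟨2 ^ k - 1, 6 * N * k, by omega, ?_, ?_⟩
  · have : 0 < 6 * N * k := by positivity
    omega
  have hd : (((2 ^ k - 1 : ℕ) : ℝ)) = 2 ^ k - 1 := by
    rw [Nat.cast_sub (by omega)]
    push_cast
    rfl
  set x : ℝ := (2 : ℝ) ^ k with hx
  have hx0 : 0 < x := by positivity
  have hx1 : 1 ≤ x := by linarith
  -- left side
  have hl : 4 / ((((2 ^ k - 1 : ℕ) : ℝ)) + 1) ^ N + (7 / 8 : ℝ) ^ (6 * N * k) ≤ 5 / x ^ N := by
    rw [hd, sub_add_cancel]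
    have h1 : (7 / 8 : ℝ) ^ (6 * N * k) ≤ 1 / x ^ N := by
      have h2 : (7 / 8 : ℝ) ^ (6 * N * k) = ((7 / 8 : ℝ) ^ 6) ^ (N * k) := by
        rw [← pow_mul]
        congr 1
        ring
      have h3 : (1 : ℝ) / x ^ N = (1 / 2 : ℝ) ^ (N * k) := by
        rw [hx, ← pow_mul, one_div, one_div, inv_pow]
        congr 2
        ring
      rw [h2, h3]
      exact pow_le_pow_left₀ (by norm_num) (by norm_num) _
    have h4 : (5 : ℝ) / x ^ N = 4 / x ^ N + 1 / x ^ N := by ring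
    rw [h4]
    linarith
  refine hl.trans ?_
  -- right side
  set A : ℝ := ((6 * N * k : ℕ) : ℝ) * ((N * (2 ^ k - 1) : ℕ) : ℝ) + 1 with hA
  have hA1 : 1 ≤ A := by
    rw [hA]
    have : (0 : ℝ) ≤ ((6 * N * k : ℕ) : ℝ) * ((N * (2 ^ k - 1) : ℕ) : ℝ) := by positivity
    linarith
  have hAx : A ≤ 6 * (N : ℝ) ^ 2 * k * x := by
    rw [hA, Nat.cast_mul N, hd]
    push_cast
    have h1 : (1 : ℝ) ≤ 6 * (N : ℝ) ^ 2 * k := by
      have : (1 : ℝ) ≤ (N : ℝ) ^ 2 := one_le_pow₀ hNr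
      nlinarith
    nlinarith
  have hexp : -((N : ℝ) - η') ≤ -((N : ℝ) - η) := by linarith
  refine le_trans ?_ (Real.rpow_le_rpow_of_exponent_le hA1 hexp)
  rw [Real.rpow_neg (by linarith), ← one_div, div_le_div_iff₀ (by positivity) (Real.rpow_pos_of_pos (by linarith) _),
    one_mul]
  have hNη : 0 ≤ (N : ℝ) - η' := by linarith
  have h1 : A ^ ((N : ℝ) - η') ≤ (6 * (N : ℝ) ^ 2 * k * x) ^ ((N : ℝ) - η') :=
    Real.rpow_le_rpow (by linarith) hAx hNη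
  have h2 : (6 * (N : ℝ) ^ 2 * k * x) ^ ((N : ℝ) - η') =
      (6 * (N : ℝ) ^ 2 * k) ^ ((N : ℝ) - η') * x ^ ((N : ℝ) - η') :=
    Real.mul_rpow (by positivity) hx0.le
  have h3 : (6 * (N : ℝ) ^ 2 * k) ^ ((N : ℝ) - η') ≤ (6 * (N : ℝ) ^ 2 * k) ^ (N : ℝ) := by
    refine Real.rpow_le_rpow_of_exponent_le ?_ (by linarith)
    have : (1 : ℝ) ≤ (N : ℝ) ^ 2 := one_le_pow₀ hNr
    nlinarith
  have h4 : x ^ ((N : ℝ) - η') = x ^ N / ((2 : ℝ) ^ η') ^ k := by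
    rw [Real.rpow_sub hx0, Real.rpow_natCast, hx]
    congr 1
    rw [← Real.rpow_natCast, ← Real.rpow_natCast, ← Real.rpow_mul (by norm_num), ← Real.rpow_mul (by norm_num)]
    congr 1
    ring
  have h5 : 5 * ((6 * (N : ℝ) ^ 2 * k) ^ N * (x ^ N / ((2 : ℝ) ^ η') ^ k)) =
      (C * ((k : ℝ) ^ N / ((2 : ℝ) ^ η') ^ k)) * x ^ N := by
    rw [hC, mul_pow (6 * (N : ℝ) ^ 2) (k : ℝ)]
    ring
  calc 5 * A ^ ((N : ℝ) - η') ≤ 5 * ((6 * (N : ℝ) ^ 2 * k) ^ ((N : ℝ) - η') * x ^ ((N : ℝ) - η')) := by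
        rw [← h2]; linarith
    _ ≤ 5 * ((6 * (N : ℝ) ^ 2 * k) ^ (N : ℝ) * x ^ ((N : ℝ) - η')) := by gcongr
    _ = (C * ((k : ℝ) ^ N / ((2 : ℝ) ^ η') ^ k)) * x ^ N := by
        rw [h4, Real.rpow_natCast]; exact h5
    _ ≤ 1 * x ^ N := mul_le_mul_of_nonneg_right hkk.le (by positivity)
    _ = x ^ N := one_mul _

open Classical in
/-- (PLcore) polynomial partitioning: for every `N` and `η` there are `r` and `D` such that every finite measure on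
`ℝ ^ N` has for each depth `L` a tree with `r` polynomials of degree at most `D` at each node, such that a line meets at
most `A ^ L` nodes of depth `L` (`A = r D + 1`) while the collision mass of the sign cells is at most
`A ^ (-(N - η) L)` -/
theorem pl_core (N : ℕ) (hN : 1 ≤ N) (η : ℝ) (hη : 0 < η) :
    ∃ r D : ℕ, 1 ≤ r ∧ 1 ≤ D ∧ ∀ (Ω : Type) [Fintype Ω] (μ : Ω → ℝ) (_ : ∀ ω, 0 ≤ μ ω) (p : Ω → Fin N → ℝ) (L : ℕ),
      ∃ Q : List (Fin r → SignType) → Fin r → MvPolynomial (Fin N) ℝ,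
        (∀ v i, Q v i ≠ 0 ∧ (Q v i).totalDegree ≤ D) ∧
        (∑ ω, ∑ ω', μ ω * μ ω' * (if un Q L (p ω) ∧ un Q L (p ω') ∧ node Q L (p ω) = node Q L (p ω') then 1 else 0) ≤
          ((r : ℝ) * D + 1) ^ (-(((N : ℝ) - η) * L)) * (∑ ω, μ ω) ^ 2) ∧
        ∀ a x : Fin N → ℝ, ∀ k, ∃ S : Finset ℝ, S.card + 1 ≤ (r * D + 1) ^ k ∧
          ∀ t t', t ≤ t' → (∀ s ∈ S, ¬ (t ≤ s ∧ s ≤ t')) →
            node Q k (fun i => a i + t * x i) = node Q k (fun i => a i + t' * x i) := by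
  obtain ⟨d, r, hd, hr, hdr⟩ := exists_param N hN η hη
  refine ⟨r, N * d, hr, Nat.mul_pos hN hd, fun Ω _ μ hμ p L => ?_⟩
  obtain ⟨Q, hQ, hQs⟩ := exists_tree hμ N d r p L
  refine ⟨Q, hQ, hQs.trans ?_, fun a x k => exists_breaks (fun v i => (hQ v i).2) a x k⟩
  refine mul_le_mul_of_nonneg_right ?_ (sq_nonneg _)
  have hA : (0 : ℝ) ≤ (r : ℝ) * (N * d : ℕ) + 1 := by positivity
  have h1 : -(((N : ℝ) - η) * L) = (-((N : ℝ) - η)) * (L : ℕ) := by ring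
  rw [h1, Real.rpow_mul_natCast hA]
  exact pow_le_pow_left₀ (by positivity) hdr L

end

end Pool.Agent.Helper89.PL
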