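import Pool.Agent.Helper89.PL.Cell
import Pool.Agent.Helper89.PL.Coll

/-! Polynomial partitioning, part 9: one finite space with a base. -/

namespace Pool.Agent.Helper89.PL

open Finset MvPolynomial
open Pool.Agent.Helper69.RK (pr res mass)
open Pool.Agent.Helper31.EC

noncomputable section

theorem node_drop {N r : ℕ} (Q : List (Fin r → SignType) → Fin r → MvPolynomial (Fin N) ℝ) (p : Fin N → ℝ) (j L : ℕ)
    (hj : j ≤ L) : node Q j p = (node Q L p).drop (L - j) := by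
  induction L with
  | zero =>
    have : j = 0 := by omega
    subst this
    rfl
  | succ L ih =>
    rcases Nat.lt_or_ge j (L + 1) with h1 | h1
    · have h2 : L + 1 - j = (L - j) + 1 := by omega
      rw [h2, node, List.drop_succ_cons]
      exact ih (by omega)
    · have : j = L + 1 := by omega
      subst this
      simp

/-- lower corner of the cell -/
def lo {m : ℕ} (δ : ℝ) (y : Fin m → ℝ) : Fin m → ℝ := fun i => δ * Sp.cell δ y i

theorem lo_close {m : ℕ} {δ : ℝ} (hδ : 0 < δ) (y : Fin m → ℝ) (i : Fin m) : |y i - lo δ y i| ≤ δ := by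
  unfold lo Sp.cell
  have h1 := Int.floor_le (y i / δ)
  have h2 := Int.lt_floor_add_one (y i / δ)
  rw [le_div_iff₀ hδ] at h1
  rw [div_lt_iff₀ hδ] at h2
  rw [abs_le]
  constructor <;> nlinarith

theorem icc_card (y : ℝ) : (Finset.Icc ⌈y - 1⌉ ⌊y + 1⌋).card ≤ 3 := by
  rw [Int.card_Icc]
  have h1 := Int.floor_le (y + 1)
  have h2 := Int.le_ceil (y - 1)
  have h3 : (⌊y + 1⌋ : ℝ) + 1 - ⌈y - 1⌉ ≤ 3 := by linarith
  have h4 : ⌊y + 1⌋ + 1 - ⌈y - 1⌉ ≤ 3 := by exact_mod_cast h3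
  omega

open Classical in
theorem pl_fin (m : ℕ) (η : ℝ) (hη : 0 < η) : ∃ r D : ℕ, 1 ≤ r ∧ 1 ≤ D ∧
    ∀ (F : FSp) (a x : F.Ω → Fin m → ℝ) (t : F.Ω → Fin 1 → ℝ) (C δ δw : ℝ), 1 ≤ C → 0 < δ → δ ≤ δw → δ ≤ 1 →
      (∀ ω, F.μ ω ≠ 0 → |t ω 0| ≤ C ∧ (∀ i, |a ω i| ≤ C) ∧ (∀ i, |x ω i| ≤ C)) → ∀ L : ℕ,
      ∃ (V W : F.Ω → List (Fin r → SignType)) (q : F.Ω → MvPolynomial (Fin (m + 1)) ℝ) (U Bad : F.Ω → Prop),
        (∀ ω ω', F.Z ω ω' → V ω = V ω' → q ω = q ω' ∧ (U ω ↔ U ω')) ∧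
        (∀ ω ω', F.Z ω ω' → Sp.cell δ (t ω) = Sp.cell δ (t ω') →
          Sp.cell δ (fun i => a ω i + t ω 0 * x ω i) = Sp.cell δ (fun i => a ω' i + t ω' 0 * x ω' i) → V ω = V ω') ∧
        (∀ ω, q ω ≠ 0 ∧ (q ω).totalDegree ≤ r * D) ∧
        (∀ ω, F.μ ω ≠ 0 → ¬ U ω → ∃ y : Fin (m + 1) → ℝ, |y 0 - t ω 0| ≤ 6 * C * δ ∧
          (∀ i : Fin m, |y i.succ - (a ω i + t ω 0 * x ω i)| ≤ 6 * C * δ) ∧ eval y (q ω) = 0) ∧
        (∀ ω0, ∑ ω, ∑ ω', (if Quotient.mk F.Z ω = Quotient.mk F.Z ω0 ∧ Quotient.mk F.Z ω' = Quotient.mk F.Z ω0 ∧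
            V ω = V ω' then res F.μ U ω * res F.μ U ω' else 0) ≤
          ((r : ℝ) * D + 1) ^ (-((((m : ℝ) + 1) - η) * L)) * (pr F.μ (Quotient.mk F.Z) ω0) ^ 2) ∧
        (∀ ω, (V ω).length ≤ L ∧ (F.μ ω ≠ 0 → V ω = (W ω).drop (L - (V ω).length))) ∧
        (∀ ω ω', F.Z ω ω' → Sp.cell δ (a ω) = Sp.cell δ (a ω') → Sp.cell δ (x ω) = Sp.cell δ (x ω') →
          Sp.cell δ (t ω) = Sp.cell δ (t ω') → W ω = W ω') ∧
        (∀ ω ω', F.Z ω ω' → Sp.cell δ (a ω) = Sp.cell δ (a ω') → Sp.cell δ (x ω) = Sp.cell δ (x ω') →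
          Sp.cell δw (t ω) = Sp.cell δw (t ω') → ¬ Bad ω → W ω = W ω') ∧
        (∀ ω, ∃ T : Finset ℤ, T.card ≤ 3 * (r * D + 1) ^ L ∧ ∀ ω', F.Z ω ω' → Sp.cell δ (a ω) = Sp.cell δ (a ω') →
          Sp.cell δ (x ω) = Sp.cell δ (x ω') → Bad ω' → Sp.cell δw (t ω') 0 ∈ T) ∧
        (∀ ω ω', F.Z ω ω' → Sp.cell δ (a ω) = Sp.cell δ (a ω') → Sp.cell δ (x ω) = Sp.cell δ (x ω') →
          Sp.cell δw (t ω) = Sp.cell δw (t ω') → (Bad ω ↔ Bad ω')) := by
  obtain ⟨r, D, hr, hD, hcore⟩ := pl_core (m + 1) (by omega) η hη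
  refine ⟨r, D, hr, hD, ?_⟩
  intro F a x t C δ δw hC hδ hδw hδ1 hb L
  have hδw0 : 0 < δw := lt_of_lt_of_le hδ hδw
  -- the rounded points
  set A : F.Ω → Fin (m + 1) → ℝ := fun ω => Fin.cons 0 (lo δ (a ω)) with hA
  set X : F.Ω → Fin (m + 1) → ℝ := fun ω => Fin.cons 1 (lo δ (x ω)) with hX
  set tt : F.Ω → ℝ := fun ω => lo δ (t ω) 0 with htt
  set p : F.Ω → Fin (m + 1) → ℝ := fun ω i => A ω i + tt ω * X ω i with hp
  set c : F.Ω → Fin (m + 1) → ℝ := fun ω => Fin.cons (tt ω) (lo δ (fun i => a ω i + t ω 0 * x ω i)) with hc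
  set ρ : ℝ := 5 * C * δ with hρ
  -- distances
  have hpc : ∀ ω, F.μ ω ≠ 0 → ∀ l, |p ω l - c ω l| ≤ ρ := by
    intro ω hω l
    obtain ⟨h1, h2, h3⟩ := hb ω hω
    refine Fin.cases ?_ (fun i => ?_) l
    · have : p ω 0 - c ω 0 = 0 := by
        rw [hp, hc, hA, hX]
        simp
      rw [this, abs_zero, hρ]
      positivity
    · have e1 : p ω i.succ - c ω i.succ = (lo δ (a ω) i - a ω i) - (t ω 0 - tt ω) * x ω i -
          t ω 0 * (x ω i - lo δ (x ω) i) + (t ω 0 - tt ω) * (x ω i - lo δ (x ω) i) +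
          ((a ω i + t ω 0 * x ω i) - lo δ (fun i => a ω i + t ω 0 * x ω i) i) := by
        rw [hp, hc, hA, hX]
        simp only [Fin.cons_succ]
        ring
      have d1 : |lo δ (a ω) i - a ω i| ≤ δ := by rw [abs_sub_comm]; exact lo_close hδ _ i
      have d2 : |t ω 0 - tt ω| ≤ δ := lo_close hδ (t ω) 0
      have d3 : |x ω i - lo δ (x ω) i| ≤ δ := lo_close hδ _ i
      have d4 : |(a ω i + t ω 0 * x ω i) - lo δ (fun i => a ω i + t ω 0 * x ω i) i| ≤ δ :=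
        lo_close hδ (fun i => a ω i + t ω 0 * x ω i) i
      have f1 : |(t ω 0 - tt ω) * x ω i| ≤ δ * C := by
        rw [abs_mul]; exact mul_le_mul d2 (h3 i) (abs_nonneg _) hδ.le
      have f2 : |t ω 0 * (x ω i - lo δ (x ω) i)| ≤ C * δ := by
        rw [abs_mul]; exact mul_le_mul h1 d3 (abs_nonneg _) (by linarith)
      have f3 : |(t ω 0 - tt ω) * (x ω i - lo δ (x ω) i)| ≤ δ * 1 := by
        rw [abs_mul]; exact mul_le_mul d2 (d3.trans hδ1) (abs_nonneg _) hδ.le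
      rw [e1, hρ]
      have g1 := abs_le.1 d1
      have g2 := abs_le.1 f1
      have g3 := abs_le.1 f2
      have g4 := abs_le.1 f3
      have g5 := abs_le.1 d4
      have hCδ : δ ≤ C * δ := by nlinarith
      rw [abs_le]
      constructor <;> linarith [g1.1, g1.2, g2.1, g2.2, g3.1, g3.2, g4.1, g4.2, g5.1, g5.2]
  -- the trees
  set μz : Quotient F.Z → F.Ω → ℝ := fun z ω => if Quotient.mk F.Z ω = z then F.μ ω else 0 with hμz
  have hμz0 : ∀ z ω, 0 ≤ μz z ω := by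
    intro z ω
    rw [hμz]
    simp only
    split_ifs
    · exact F.nn ω
    · exact le_rfl
  choose Q hQ hQc hQb using fun z => hcore F.Ω (μz z) (hμz0 z) p L
  -- breaks for k = L
  choose Sb hSb1 hSb2 using fun (z : Quotient F.Z) (A' X' : Fin (m + 1) → ℝ) => hQb z A' X' L
  set st : F.Ω → ℕ := fun ω => stp (Q (Quotient.mk F.Z ω)) L (c ω) ρ with hst
  set V : F.Ω → List (Fin r → SignType) := fun ω => node (Q (Quotient.mk F.Z ω)) (st ω) (c ω) with hV
  set W : F.Ω → List (Fin r → SignType) := fun ω => node (Q (Quotient.mk F.Z ω)) L (p ω) with hW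
  have hlen : ∀ ω, (V ω).length = st ω := fun ω => node_length _ _ _
  set U : F.Ω → Prop := fun ω => st ω = L with hU
  set Bad : F.Ω → Prop := fun ω => ∃ s ∈ Sb (Quotient.mk F.Z ω) (A ω) (X ω),
    δw * (Sp.cell δw (t ω) 0 : ℝ) - δ ≤ s ∧ s ≤ δw * ((Sp.cell δw (t ω) 0 : ℝ) + 1) with hBad
  have hZq : ∀ ω ω', F.Z ω ω' → Quotient.mk F.Z ω = Quotient.mk F.Z ω' := fun ω ω' h => Quotient.sound h
  have hAc : ∀ ω ω', Sp.cell δ (a ω) = Sp.cell δ (a ω') → A ω = A ω' := by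
    intro ω ω' h
    rw [hA]
    simp only
    unfold lo
    rw [h]
  have hXc : ∀ ω ω', Sp.cell δ (x ω) = Sp.cell δ (x ω') → X ω = X ω' := by
    intro ω ω' h
    rw [hX]
    simp only
    unfold lo
    rw [h]
  have htc : ∀ ω ω', Sp.cell δ (t ω) = Sp.cell δ (t ω') → tt ω = tt ω' := by
    intro ω ω' h
    rw [htt]
    simp only
    unfold lo
    rw [h]
  have hVW : ∀ ω, F.μ ω ≠ 0 → V ω = (W ω).drop (L - (V ω).length) := by
    intro ω hω
    rw [hlen]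
    have h1 : V ω = node (Q (Quotient.mk F.Z ω)) (st ω) (p ω) :=
      (node_box _ L (c ω) (p ω) ρ (hpc ω hω) (st ω) le_rfl).symm
    rw [h1]
    exact node_drop _ _ _ _ (stp_le _ _ _ _)
  refine ⟨V, W, fun ω => prd (Q (Quotient.mk F.Z ω) (V ω)), U, Bad, ?_, ?_, ?_, ?_, ?_, ?_, ?_, ?_, ?_, ?_⟩
  · intro ω ω' hz hv
    refine ⟨?_, ?_⟩
    · show prd (Q (Quotient.mk F.Z ω) (V ω)) = prd (Q (Quotient.mk F.Z ω') (V ω'))
      rw [hZq _ _ hz, hv]
    · show st ω = L ↔ st ω' = L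
      rw [← hlen ω, ← hlen ω', hv]
  · intro ω ω' hz h1 h2
    have hcc : c ω = c ω' := by
      rw [hc]
      simp only
      rw [htc _ _ h1]
      unfold lo
      rw [h2]
    show node (Q (Quotient.mk F.Z ω)) (stp (Q (Quotient.mk F.Z ω)) L (c ω) ρ) (c ω) =
      node (Q (Quotient.mk F.Z ω')) (stp (Q (Quotient.mk F.Z ω')) L (c ω') ρ) (c ω')
    rw [hZq _ _ hz, hcc]
  · intro ω
    exact ⟨prd_ne (fun i => (hQ _ _ i).1), prd_deg (fun i => (hQ _ _ i).2)⟩
  · intro ω hω hu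
    have h1 : st ω < L := lt_of_le_of_ne (stp_le _ _ _ _) hu
    obtain ⟨i, y, hy, hy0⟩ := stp_hit (Q (Quotient.mk F.Z ω)) L (c ω) ρ h1
    have hCδ : δ ≤ C * δ := by nlinarith
    refine ⟨y, ?_, fun i => ?_, prd_zero i y hy0⟩
    · have h2 := hy 0
      have h3 : |t ω 0 - tt ω| ≤ δ := lo_close hδ (t ω) 0
      have h4 : c ω 0 = tt ω := by rw [hc]; simp
      rw [h4, hρ] at h2
      have g1 := abs_le.1 h2
      have g2 := abs_le.1 h3
      rw [abs_le]
      constructor <;> linarith [g1.1, g1.2, g2.1, g2.2]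
    · have h2 := hy i.succ
      have h3 : |(a ω i + t ω 0 * x ω i) - lo δ (fun i => a ω i + t ω 0 * x ω i) i| ≤ δ :=
        lo_close hδ (fun i => a ω i + t ω 0 * x ω i) i
      have h4 : c ω i.succ = lo δ (fun i => a ω i + t ω 0 * x ω i) i := by rw [hc]; simp
      rw [h4, hρ] at h2
      have g1 := abs_le.1 h2
      have g2 := abs_le.1 h3
      rw [abs_le]
      constructor <;> linarith [g1.1, g1.2, g2.1, g2.2]
  · intro ω0
    have h1 := hQc (Quotient.mk F.Z ω0)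
    have h2 : ∑ ω, μz (Quotient.mk F.Z ω0) ω = pr F.μ (Quotient.mk F.Z) ω0 := by
      unfold pr
      refine Finset.sum_congr rfl (fun ω _ => ?_)
      rw [hμz]
      simp only
      by_cases h : Quotient.mk F.Z ω = Quotient.mk F.Z ω0
      · rw [if_pos h, if_pos h]
      · rw [if_neg h, if_neg h]
    rw [h2] at h1
    push_cast at h1
    refine le_trans ?_ h1
    refine Finset.sum_le_sum (fun ω _ => Finset.sum_le_sum (fun ω' _ => ?_))
    by_cases hcond : Quotient.mk F.Z ω = Quotient.mk F.Z ω0 ∧ Quotient.mk F.Z ω' = Quotient.mk F.Z ω0 ∧ V ω = V ω'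
    · rw [if_pos hcond]
      obtain ⟨hz, hz', hv⟩ := hcond
      have hrhs : 0 ≤ μz (Quotient.mk F.Z ω0) ω * μz (Quotient.mk F.Z ω0) ω' *
          (if un (Q (Quotient.mk F.Z ω0)) L (p ω) ∧ un (Q (Quotient.mk F.Z ω0)) L (p ω') ∧
            node (Q (Quotient.mk F.Z ω0)) L (p ω) = node (Q (Quotient.mk F.Z ω0)) L (p ω') then (1 : ℝ) else 0) :=
        mul_nonneg (mul_nonneg (hμz0 _ _) (hμz0 _ _)) (by split_ifs <;> norm_num)
      by_cases hu : U ω ∧ F.μ ω ≠ 0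
      · by_cases hu' : U ω' ∧ F.μ ω' ≠ 0
        · have e1 : res F.μ U ω = F.μ ω := if_pos hu.1
          have e2 : res F.μ U ω' = F.μ ω' := if_pos hu'.1
          have e3 : μz (Quotient.mk F.Z ω0) ω = F.μ ω := if_pos hz
          have e4 : μz (Quotient.mk F.Z ω0) ω' = F.μ ω' := if_pos hz'
          have hst1 : stp (Q (Quotient.mk F.Z ω0)) L (c ω) ρ = L := by
            have : st ω = L := hu.1
            rw [hst] at this
            simp only at this
            rwa [hz] at this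
          have hst2 : stp (Q (Quotient.mk F.Z ω0)) L (c ω') ρ = L := by
            have : st ω' = L := hu'.1
            rw [hst] at this
            simp only at this
            rwa [hz'] at this
          have k1 := un_box _ L (c ω) (p ω) ρ (hpc ω hu.2) hst1
          have k2 := un_box _ L (c ω') (p ω') ρ (hpc ω' hu'.2) hst2
          have k3 : node (Q (Quotient.mk F.Z ω0)) L (p ω) = node (Q (Quotient.mk F.Z ω0)) L (p ω') := by
            have n1 := node_box (Q (Quotient.mk F.Z ω0)) L (c ω) (p ω) ρ (hpc ω hu.2) L hst1.ge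
            have n2 := node_box (Q (Quotient.mk F.Z ω0)) L (c ω') (p ω') ρ (hpc ω' hu'.2) L hst2.ge
            have n3 : V ω = node (Q (Quotient.mk F.Z ω0)) L (c ω) := by
              show node (Q (Quotient.mk F.Z ω)) (stp (Q (Quotient.mk F.Z ω)) L (c ω) ρ) (c ω) = _
              rw [hz, hst1]
            have n4 : V ω' = node (Q (Quotient.mk F.Z ω0)) L (c ω') := by
              show node (Q (Quotient.mk F.Z ω')) (stp (Q (Quotient.mk F.Z ω')) L (c ω') ρ) (c ω') = _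
              rw [hz', hst2]
            rw [n1, n2, ← n3, ← n4, hv]
          rw [e1, e2, e3, e4, if_pos ⟨k1, k2, k3⟩, mul_one]
        · have e2 : res F.μ U ω' = 0 := by
            unfold res
            split_ifs with h
            · by_contra hne
              exact hu' ⟨h, hne⟩
            · rfl
          rw [e2, mul_zero]
          exact hrhs
      · have e2 : res F.μ U ω = 0 := by
          unfold res
          split_ifs with h
          · by_contra hne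
            exact hu ⟨h, hne⟩
          · rfl
        rw [e2, zero_mul]
        exact hrhs
    · rw [if_neg hcond]
      exact mul_nonneg (mul_nonneg (hμz0 _ _) (hμz0 _ _)) (by split_ifs <;> norm_num)
  · intro ω
    exact ⟨(hlen ω).le.trans (stp_le _ _ _ _), hVW ω⟩
  · intro ω ω' hz h1 h2 h3
    have hpp : p ω = p ω' := by
      funext i
      show A ω i + tt ω * X ω i = A ω' i + tt ω' * X ω' i
      rw [hAc _ _ h1, hXc _ _ h2, htc _ _ h3]
    show node (Q (Quotient.mk F.Z ω)) L (p ω) = node (Q (Quotient.mk F.Z ω')) L (p ω')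
    rw [hZq _ _ hz, hpp]
  · intro ω ω' hz h1 h2 h3 hbad
    have hJ : ∀ ω1, Sp.cell δw (t ω1) = Sp.cell δw (t ω) → δw * (Sp.cell δw (t ω) 0 : ℝ) - δ ≤ tt ω1 ∧
        tt ω1 ≤ δw * ((Sp.cell δw (t ω) 0 : ℝ) + 1) := by
      intro ω1 h
      rw [← h]
      have e1 := Int.floor_le (t ω1 0 / δw)
      have e2 := Int.lt_floor_add_one (t ω1 0 / δw)
      rw [le_div_iff₀ hδw0] at e1
      rw [div_lt_iff₀ hδw0] at e2
      have e3 := Int.floor_le (t ω1 0 / δ)
      have e4 := Int.lt_floor_add_one (t ω1 0 / δ)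
      rw [le_div_iff₀ hδ] at e3
      rw [div_lt_iff₀ hδ] at e4
      have e5 : tt ω1 = δ * (⌊t ω1 0 / δ⌋ : ℝ) := rfl
      have e6 : (Sp.cell δw (t ω1) 0 : ℝ) = (⌊t ω1 0 / δw⌋ : ℝ) := rfl
      rw [e5, e6]
      constructor <;> nlinarith
    have hj := hJ ω rfl
    have hj' := hJ ω' h3.symm
    have hno : ∀ s ∈ Sb (Quotient.mk F.Z ω) (A ω) (X ω), ∀ lo' hi' : ℝ,
        δw * (Sp.cell δw (t ω) 0 : ℝ) - δ ≤ lo' → hi' ≤ δw * ((Sp.cell δw (t ω) 0 : ℝ) + 1) →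
        ¬ (lo' ≤ s ∧ s ≤ hi') := by
      intro s hs lo' hi' g1 g2 g3
      exact hbad ⟨s, hs, g1.trans g3.1, g3.2.trans g2⟩
    have hWp : ∀ ω1, W ω1 = node (Q (Quotient.mk F.Z ω1)) L (fun i => A ω1 i + tt ω1 * X ω1 i) := fun _ => rfl
    rw [hWp, hWp, ← hZq _ _ hz, ← hAc _ _ h1, ← hXc _ _ h2]
    rcases le_total (tt ω) (tt ω') with hle | hle
    · exact hSb2 _ _ _ _ _ hle (fun s hs => hno s hs _ _ hj.1 hj'.2)
    · exact (hSb2 _ _ _ _ _ hle (fun s hs => hno s hs _ _ hj'.1 hj.2)).symm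
  · intro ω
    refine ⟨(Sb (Quotient.mk F.Z ω) (A ω) (X ω)).biUnion (fun s => Finset.Icc ⌈s / δw - 1⌉ ⌊s / δw + 1⌋), ?_, ?_⟩
    · refine Finset.card_biUnion_le.trans ?_
      refine (Finset.sum_le_card_nsmul _ _ 3 (fun s _ => icc_card _)).trans ?_
      rw [smul_eq_mul, mul_comm]
      have := hSb1 (Quotient.mk F.Z ω) (A ω) (X ω)
      exact Nat.mul_le_mul_left 3 (by omega)
    · intro ω' hz h1 h2 ⟨s, hs, g1, g2⟩
      rw [← hZq _ _ hz, ← hAc _ _ h1, ← hXc _ _ h2] at hs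
      rw [Finset.mem_biUnion]
      refine ⟨s, hs, ?_⟩
      rw [Finset.mem_Icc]
      constructor
      · rw [Int.ceil_le]
        have : s / δw ≤ (Sp.cell δw (t ω') 0 : ℝ) + 1 := by rw [div_le_iff₀ hδw0]; linarith
        linarith
      · rw [Int.le_floor]
        have : (Sp.cell δw (t ω') 0 : ℝ) - 1 ≤ s / δw := by rw [le_div_iff₀ hδw0]; nlinarith
        linarith
  · intro ω ω' hz h1 h2 h3
    show (∃ s ∈ Sb (Quotient.mk F.Z ω) (A ω) (X ω), _) ↔ (∃ s ∈ Sb (Quotient.mk F.Z ω') (A ω') (X ω'), _)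
    rw [hZq _ _ hz, hAc _ _ h1, hXc _ _ h2, h3]

end

end Pool.Agent.Helper89.PL
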