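import Pool.Agent.Helper89.PL.Ball

/-! Splitting by functionals, part 4: arbitrary finite measures on `ℝ ^ (K + 1)`, by generic perturbation and
compactness. -/

namespace Pool.Agent.Helper89.PL

open Finset Filter Topology Polynomial

noncomputable section

/-- perturbation of arbitrary vectors by vectors in general position -/
theorem exists_small {T : Type} [Fintype T] {K : ℕ} (w v : T → Fin (K + 1) → ℝ) (hw : GenPos K w) (δ : ℝ) (hδ : 0 < δ) :
    ∃ s : ℝ, 0 < s ∧ s < δ ∧ GenPos K (fun τ => s • w τ + v τ) := by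
  classical
  -- the polynomials
  set P : (Fin (K + 1) → T) → ℝ[X] := fun z =>
    Matrix.det ((X : ℝ[X]) • (Matrix.of fun k => w (z k)).map C + (Matrix.of fun k => v (z k)).map C) with hP
  have hP0 : ∀ z, Function.Injective z → P z ≠ 0 := by
    intro z hz h0
    have h1 := Polynomial.coeff_det_X_add_C_card (Matrix.of fun k => w (z k)) (Matrix.of fun k => v (z k))
    have h2 : (P z).coeff (Fintype.card (Fin (K + 1))) = (Matrix.of fun k => w (z k)).det := h1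
    rw [h0, coeff_zero] at h2
    have h3 : LinearIndependent ℝ (Matrix.of fun k => w (z k)).row := hw z hz
    rw [Matrix.linearIndependent_rows_iff_isUnit, Matrix.isUnit_iff_isUnit_det, isUnit_iff_ne_zero] at h3
    exact h3 h2.symm
  have hPe : ∀ z s, (P z).eval s = (Matrix.of fun k => s • w (z k) + v (z k)).det := by
    intro z s
    have h1 : (P z).eval s = Polynomial.evalRingHom s (P z) := rfl
    rw [h1, hP]
    simp only
    rw [RingHom.map_det]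
    congr 1
    ext i j
    simp
    ring
  set bad : Finset ℝ := Finset.univ.biUnion (fun z : Fin (K + 1) → T => (P z).roots.toFinset) with hbad
  obtain ⟨s, hs, hsb⟩ := (Set.Ioo_infinite hδ).exists_notMem_finset bad
  refine ⟨s, hs.1, hs.2, fun z hz => ?_⟩
  have h1 : (P z).eval s ≠ 0 := by
    intro h
    apply hsb
    rw [hbad, Finset.mem_biUnion]
    exact ⟨z, mem_univ z, by rw [Multiset.mem_toFinset, Polynomial.mem_roots (hP0 z hz)]; exact h⟩
  rw [hPe] at h1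
  have h3 : LinearIndependent ℝ (Matrix.of fun k => s • w (z k) + v (z k)).row := by
    rw [Matrix.linearIndependent_rows_iff_isUnit, Matrix.isUnit_iff_isUnit_det, isUnit_iff_ne_zero]
    exact h1
  exact h3

/-- vectors in general position with entries in the unit interval -/
theorem exists_gen (T : Type) [Fintype T] (K : ℕ) :
    ∃ w : T → Fin (K + 1) → ℝ, GenPos K w ∧ ∀ τ k, |w τ k| ≤ 1 := by
  classical
  set N := Fintype.card T with hN
  set s : T → ℝ := fun τ => ((Fintype.equivFin T τ : ℕ) : ℝ) / (N + 1) with hs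
  have hsi : Function.Injective s := by
    intro τ τ' h
    have h1 : (0 : ℝ) < (N : ℝ) + 1 := by positivity
    have h2 : ((Fintype.equivFin T τ : ℕ) : ℝ) = ((Fintype.equivFin T τ' : ℕ) : ℝ) := by
      rw [hs] at h
      simp only at h
      rwa [div_left_inj' h1.ne'] at h
    exact (Fintype.equivFin T).injective (Fin.ext (by exact_mod_cast h2))
  have hs0 : ∀ τ, 0 ≤ s τ := fun τ => by rw [hs]; positivity
  have hs1 : ∀ τ, s τ ≤ 1 := fun τ => by
    rw [hs]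
    simp only
    rw [div_le_one (by positivity)]
    have : (Fintype.equivFin T τ : ℕ) < N := (Fintype.equivFin T τ).2
    have h2 : ((Fintype.equivFin T τ : ℕ) : ℝ) < N := by exact_mod_cast this
    linarith
  refine ⟨fun τ k => s τ ^ (k : ℕ), fun z hz => ?_, fun τ k => ?_⟩
  · have h1 : (Matrix.vandermonde (fun k => s (z k))).det ≠ 0 := by
      rw [Matrix.det_vandermonde_ne_zero_iff]
      exact hsi.comp hz
    have h3 : LinearIndependent ℝ (Matrix.vandermonde (fun k => s (z k))).row := by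
      rw [Matrix.linearIndependent_rows_iff_isUnit, Matrix.isUnit_iff_isUnit_det, isUnit_iff_ne_zero]
      exact h1
    exact h3
  · rw [abs_of_nonneg (pow_nonneg (hs0 τ) _)]
    exact pow_le_one₀ (hs0 τ) (hs1 τ)

/-- a functional is bounded by `(K + 1) ‖f‖ ‖v‖` -/
theorem dot_le {K : ℕ} (f v : Fin (K + 1) → ℝ) : |f ⬝ᵥ v| ≤ ((K : ℝ) + 1) * (‖f‖ * ‖v‖) := by
  unfold dotProduct
  refine (Finset.abs_sum_le_sum_abs _ _).trans ?_
  have h1 : ∀ i ∈ (univ : Finset (Fin (K + 1))), |f i * v i| ≤ ‖f‖ * ‖v‖ := by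
    intro i _
    rw [abs_mul]
    exact mul_le_mul (norm_le_pi_norm f i) (norm_le_pi_norm v i) (abs_nonneg _) (norm_nonneg _)
  refine (Finset.sum_le_sum h1).trans (le_of_eq ?_)
  rw [Finset.sum_const, Finset.card_univ, Fintype.card_fin, nsmul_eq_mul]
  push_cast
  rfl

open Classical in
/-- one step of the approximation -/
theorem approx {Ω : Type} [Fintype Ω] {μ : Ω → ℝ} (hμ : ∀ ω, 0 ≤ μ ω) (h1 : ∑ ω, μ ω = 1) {K : ℕ}
    (v : Ω → Fin (K + 1) → ℝ) (r : ℕ) (n : ℕ) :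
    ∃ (s : ℝ) (w : Ω → Fin (n + 1) → Fin (K + 1) → ℝ) (f : Fin r → Fin (K + 1) → ℝ),
      0 < s ∧ s < 1 / ((n : ℝ) + 1) ∧ (∀ ω l k, |w ω l k| ≤ 1) ∧ (∀ i, ‖f i‖ = 1) ∧
      ∑ ω, ∑ l, ∑ ω', ∑ l', (μ ω / (n + 1)) * (μ ω' / (n + 1)) *
        (if ∀ i, 0 < (f i ⬝ᵥ (s • w ω l + v ω)) * (f i ⬝ᵥ (s • w ω' l' + v ω')) then 1 else 0) ≤
        4 / ((K : ℝ) + 1) + 2 * √(((K : ℝ) + 2) * (K + 1) * (1 / (n + 1))) + (7 / 8) ^ r := by
  set T := Ω × Fin (n + 1) with hT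
  set ν : T → ℝ := fun τ => μ τ.1 / (n + 1) with hν
  have hn : (0 : ℝ) < (n : ℝ) + 1 := by positivity
  have hν0 : ∀ τ, 0 ≤ ν τ := fun τ => div_nonneg (hμ _) hn.le
  have hν1 : ∑ τ, ν τ = 1 := by
    rw [Fintype.sum_prod_type]
    simp only [hν, Finset.sum_const, Finset.card_univ, Fintype.card_fin, nsmul_eq_mul]
    rw [← Finset.mul_sum, ← Finset.sum_div, h1]
    push_cast
    field_simp
  have hν2 : ∑ τ, ν τ ^ 2 ≤ 1 / (n + 1) := by
    have h2 : ∀ τ, ν τ ^ 2 ≤ ν τ * (1 / (n + 1)) := by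
      intro τ
      rw [sq]
      refine mul_le_mul_of_nonneg_left ?_ (hν0 τ)
      rw [hν]
      simp only
      gcongr
      have := Finset.single_le_sum (fun ω _ => hμ ω) (mem_univ τ.1)
      rwa [h1] at this
    refine (Finset.sum_le_sum (fun τ _ => h2 τ)).trans ?_
    rw [← Finset.sum_mul, hν1, one_mul]
  obtain ⟨w, hw, hw1⟩ := exists_gen T K
  obtain ⟨s, hs0, hs1, hgp⟩ := exists_small w (fun τ => v τ.1) hw (1 / ((n : ℝ) + 1)) (by positivity)
  obtain ⟨g, hg0, hg⟩ := exists_fns hν0 hν1 hgp r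
  have hgn : ∀ i, 0 < ‖g i‖ := fun i => norm_pos_iff.2 (hg0 i)
  refine ⟨s, fun ω l => w (ω, l), fun i => ‖g i‖⁻¹ • g i, hs0, hs1, fun ω l k => hw1 _ _, fun i => ?_, ?_⟩
  · rw [norm_smul, norm_inv, norm_norm, inv_mul_cancel₀ (hgn i).ne']
  · have hsign : ∀ (i : Fin r) (a b : Fin (K + 1) → ℝ), 0 < ((‖g i‖⁻¹ • g i) ⬝ᵥ a) * ((‖g i‖⁻¹ • g i) ⬝ᵥ b) ↔
        0 < (g i ⬝ᵥ a) * (g i ⬝ᵥ b) := by
      intro i a b
      rw [smul_dotProduct, smul_dotProduct, smul_eq_mul, smul_eq_mul]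
      have h3 : ‖g i‖⁻¹ * (g i ⬝ᵥ a) * (‖g i‖⁻¹ * (g i ⬝ᵥ b)) = (‖g i‖⁻¹) ^ 2 * ((g i ⬝ᵥ a) * (g i ⬝ᵥ b)) := by ring
      rw [h3]
      have h4 : 0 < (‖g i‖⁻¹) ^ 2 := by
        have := hgn i
        positivity
      exact mul_pos_iff_of_pos_left h4
    simp only [hsign]
    set F : Ω × Fin (n + 1) → Ω × Fin (n + 1) → ℝ := fun τ τ' => (μ τ.1 / (n + 1)) * (μ τ'.1 / (n + 1)) *
      (if ∀ i, 0 < (g i ⬝ᵥ (s • w τ + v τ.1)) * (g i ⬝ᵥ (s • w τ' + v τ'.1)) then 1 else 0) with hF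
    have key : ∑ ω : Ω, ∑ l : Fin (n + 1), ∑ ω' : Ω, ∑ l' : Fin (n + 1), F (ω, l) (ω', l') =
        ∑ τ : Ω × Fin (n + 1), ∑ τ' : Ω × Fin (n + 1), F τ τ' := by
      simp only [Fintype.sum_prod_type]
    refine le_trans (le_of_eq key) (hg.trans ?_)
    gcongr

open Classical in
/-- (SPLIT) `r` functionals whose sign cells have small collision mass -/
theorem split {Ω : Type} [Fintype Ω] {μ : Ω → ℝ} (hμ : ∀ ω, 0 ≤ μ ω) (h1 : ∑ ω, μ ω = 1) {K : ℕ}
    (v : Ω → Fin (K + 1) → ℝ) (r : ℕ) :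
    ∃ f : Fin r → Fin (K + 1) → ℝ, (∀ i, f i ≠ 0) ∧
      ∑ ω, ∑ ω', μ ω * μ ω' * (if ∀ i, 0 < (f i ⬝ᵥ v ω) * (f i ⬝ᵥ v ω') then 1 else 0) ≤
        4 / ((K : ℝ) + 1) + (7 / 8) ^ r := by
  choose s w f hs0 hs1 hw hf hsum using approx hμ h1 v r
  -- convergent subsequence
  have hcpt : IsCompact {F : Fin r → Fin (K + 1) → ℝ | ∀ i, F i ∈ Metric.sphere (0 : Fin (K + 1) → ℝ) 1} := by
    have := isCompact_univ_pi (fun _ : Fin r => isCompact_sphere (0 : Fin (K + 1) → ℝ) 1)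
    refine this.of_isClosed_subset ?_ ?_
    · have h2 : {F : Fin r → Fin (K + 1) → ℝ | ∀ i, F i ∈ Metric.sphere (0 : Fin (K + 1) → ℝ) 1} =
        Set.univ.pi (fun _ => Metric.sphere (0 : Fin (K + 1) → ℝ) 1) := by
        ext F
        simp [Set.mem_pi]
      rw [h2]
      exact this.isClosed
    · intro F hF
      exact Set.mem_univ_pi.2 hF
  obtain ⟨g, hg, φ, hφ, hlim⟩ := hcpt.tendsto_subseq (x := f) (fun n i => by
    rw [mem_sphere_zero_iff_norm]
    exact hf n i)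
  refine ⟨g, fun i h0 => ?_, ?_⟩
  · have := hg i
    rw [mem_sphere_zero_iff_norm, h0, norm_zero] at this
    exact zero_ne_one this
  have hφt : Tendsto φ atTop atTop := hφ.tendsto_atTop
  -- limits
  have hinv : Tendsto (fun n : ℕ => 1 / ((φ n : ℝ) + 1)) atTop (𝓝 0) :=
    tendsto_one_div_add_atTop_nhds_zero_nat.comp hφt
  have hC : Tendsto (fun n : ℕ => 4 / ((K : ℝ) + 1) + 2 * √(((K : ℝ) + 2) * (K + 1) * (1 / ((φ n : ℝ) + 1))) +
      (7 / 8) ^ r) atTop (𝓝 (4 / ((K : ℝ) + 1) + (7 / 8) ^ r)) := by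
    have h2 : Tendsto (fun n : ℕ => √(((K : ℝ) + 2) * (K + 1) * (1 / ((φ n : ℝ) + 1)))) atTop (𝓝 0) := by
      have h3 := (hinv.const_mul (((K : ℝ) + 2) * (K + 1))).sqrt
      simpa using h3
    have h3 := ((h2.const_mul 2).const_add (4 / ((K : ℝ) + 1))).add_const ((7 / 8 : ℝ) ^ r)
    simpa using h3
  refine ge_of_tendsto hC ?_
  -- eventually the signs at the limit are the signs along the sequence
  have hfi : ∀ i, Tendsto (fun n => ‖f (φ n) i - g i‖) atTop (𝓝 0) := by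
    intro i
    have h2 : Tendsto (fun n => f (φ n) i) atTop (𝓝 (g i)) := (tendsto_pi_nhds.1 hlim) i
    exact tendsto_iff_norm_sub_tendsto_zero.1 h2
  have hsn : Tendsto (fun n => s (φ n)) atTop (𝓝 0) :=
    squeeze_zero (fun n => (hs0 _).le) (fun n => (hs1 _).le) hinv
  have hev : ∀ᶠ n in atTop, ∀ (ω : Ω) (i : Fin r), g i ⬝ᵥ v ω ≠ 0 →
      ∀ l, 0 < (f (φ n) i ⬝ᵥ (s (φ n) • w (φ n) ω l + v ω)) * (g i ⬝ᵥ v ω) := by
    rw [Filter.eventually_all]
    intro ω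
    rw [Filter.eventually_all]
    intro i
    by_cases h0 : g i ⬝ᵥ v ω = 0
    · exact Filter.Eventually.of_forall (fun n h => absurd h0 h)
    have h2 : Tendsto (fun n => ((K : ℝ) + 1) * (‖f (φ n) i - g i‖ * ‖v ω‖) + ((K : ℝ) + 1) * s (φ n)) atTop
        (𝓝 (((K : ℝ) + 1) * (0 * ‖v ω‖) + ((K : ℝ) + 1) * 0)) :=
      (((hfi i).mul_const _).const_mul _).add (hsn.const_mul _)
    have h3 : ((K : ℝ) + 1) * (0 * ‖v ω‖) + ((K : ℝ) + 1) * 0 < |g i ⬝ᵥ v ω| := by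
      simpa using abs_pos.2 h0
    filter_upwards [h2.eventually (gt_mem_nhds h3)] with n hn _ l
    have h4 : |f (φ n) i ⬝ᵥ (s (φ n) • w (φ n) ω l + v ω) - g i ⬝ᵥ v ω| < |g i ⬝ᵥ v ω| := by
      refine lt_of_le_of_lt ?_ hn
      have h5 : f (φ n) i ⬝ᵥ (s (φ n) • w (φ n) ω l + v ω) - g i ⬝ᵥ v ω =
          (f (φ n) i - g i) ⬝ᵥ v ω + s (φ n) * (f (φ n) i ⬝ᵥ w (φ n) ω l) := by
        rw [dotProduct_add, dotProduct_smul, sub_dotProduct, smul_eq_mul]
        ring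
      rw [h5]
      refine (abs_add_le _ _).trans (add_le_add (dot_le _ _) ?_)
      rw [abs_mul, abs_of_pos (hs0 _), mul_comm]
      refine mul_le_mul_of_nonneg_right ?_ (hs0 _).le
      refine (dot_le _ _).trans ?_
      rw [hf, one_mul]
      have h6 : ‖w (φ n) ω l‖ ≤ 1 := (pi_norm_le_iff_of_nonneg zero_le_one).2 (fun k => hw _ _ _ _)
      have h7 : (0 : ℝ) ≤ (K : ℝ) + 1 := by positivity
      nlinarith
    set A := g i ⬝ᵥ v ω
    set B := f (φ n) i ⬝ᵥ (s (φ n) • w (φ n) ω l + v ω)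
    by_contra h5
    push Not at h5
    have h6 : |A| ^ 2 ≤ |B - A| ^ 2 := by
      rw [sq_abs, sq_abs]
      nlinarith [sq_nonneg B]
    have h7 := pow_lt_pow_left₀ h4 (abs_nonneg _) (two_ne_zero)
    linarith
  filter_upwards [hev] with n hn
  refine le_trans ?_ (hsum (φ n))
  have hn1 : (0 : ℝ) < (φ n : ℝ) + 1 := by positivity
  have hrew : ∀ ω, ∑ l : Fin (φ n + 1), ∑ ω', ∑ l' : Fin (φ n + 1), (μ ω / ((φ n : ℝ) + 1)) * (μ ω' / ((φ n : ℝ) + 1)) *
      (if ∀ i, 0 < (g i ⬝ᵥ v ω) * (g i ⬝ᵥ v ω') then (1 : ℝ) else 0) =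
      ∑ ω', μ ω * μ ω' * (if ∀ i, 0 < (g i ⬝ᵥ v ω) * (g i ⬝ᵥ v ω') then 1 else 0) := by
    intro ω
    rw [Finset.sum_const, Finset.card_univ, Fintype.card_fin, Finset.smul_sum]
    refine Finset.sum_congr rfl (fun ω' _ => ?_)
    rw [Finset.sum_const, Finset.card_univ, Fintype.card_fin, nsmul_eq_mul, nsmul_eq_mul]
    push_cast
    field_simp
  rw [← Finset.sum_congr rfl (fun ω _ => hrew ω)]
  refine Finset.sum_le_sum (fun ω _ => Finset.sum_le_sum (fun l _ => Finset.sum_le_sum (fun ω' _ =>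
    Finset.sum_le_sum (fun l' _ => ?_))))
  refine mul_le_mul_of_nonneg_left ?_ (mul_nonneg (div_nonneg (hμ _) hn1.le) (div_nonneg (hμ _) hn1.le))
  by_cases h2 : ∀ i, 0 < (g i ⬝ᵥ v ω) * (g i ⬝ᵥ v ω')
  · rw [if_pos h2, if_pos]
    intro i
    have h3 := h2 i
    have ha : g i ⬝ᵥ v ω ≠ 0 := fun h => by rw [h, zero_mul] at h3; exact lt_irrefl _ h3
    have hb : g i ⬝ᵥ v ω' ≠ 0 := fun h => by rw [h, mul_zero] at h3; exact lt_irrefl _ h3
    have h4 := mul_pos (hn ω i ha l) (hn ω' i hb l')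
    set A := g i ⬝ᵥ v ω
    set A' := g i ⬝ᵥ v ω'
    set B := f (φ n) i ⬝ᵥ (s (φ n) • w (φ n) ω l + v ω)
    set B' := f (φ n) i ⬝ᵥ (s (φ n) • w (φ n) ω' l' + v ω')
    have h5 : 0 < (B * B') * (A * A') := by
      have : B * A * (B' * A') = (B * B') * (A * A') := by ring
      rwa [this] at h4
    exact (mul_pos_iff_of_pos_right h3).1 h5
  · rw [if_neg h2]
    split_ifs <;> norm_num

end

end Pool.Agent.Helper89.PL
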