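import Pool.Agent.Helper89.PL.Limit

/-! Polynomial partitioning without topology, part 5: polynomials. -/

namespace Pool.Agent.Helper89.PL

open Finset MvPolynomial

noncomputable section

open Classical in
/-- (SPLIT) for any finite index set of the coordinates, and any total mass -/
theorem split_idx {Ω ι : Type} [Fintype Ω] [Fintype ι] [Nonempty ι] {μ : Ω → ℝ} (hμ : ∀ ω, 0 ≤ μ ω)
    (v : Ω → ι → ℝ) (r : ℕ) :
    ∃ f : Fin r → ι → ℝ, (∀ i, f i ≠ 0) ∧
      ∑ ω, ∑ ω', μ ω * μ ω' * (if ∀ i, 0 < (f i ⬝ᵥ v ω) * (f i ⬝ᵥ v ω') then 1 else 0) ≤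
        (4 / (Fintype.card ι : ℝ) + (7 / 8) ^ r) * (∑ ω, μ ω) ^ 2 := by
  set s := ∑ ω, μ ω with hs
  have hs0 : 0 ≤ s := Finset.sum_nonneg fun ω _ => hμ ω
  rcases hs0.eq_or_lt with h0 | hpos
  · -- total mass zero
    have hz : ∀ ω, μ ω = 0 := by
      intro ω
      exact (Finset.sum_eq_zero_iff_of_nonneg (fun ω _ => hμ ω)).1 h0.symm ω (mem_univ ω)
    refine ⟨fun _ _ => 1, fun i h => ?_, ?_⟩
    · have := congrFun h (Classical.arbitrary ι)
      simp at this
    · simp [hz, ← h0]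
  · obtain ⟨K, hK⟩ : ∃ K, Fintype.card ι = K + 1 := ⟨Fintype.card ι - 1, by
      have := Fintype.card_pos (α := ι)
      omega⟩
    set e : ι ≃ Fin (K + 1) := Fintype.equivFinOfCardEq hK with he
    obtain ⟨f, hf0, hf⟩ := split (μ := fun ω => μ ω / s) (fun ω => div_nonneg (hμ ω) hs0)
      (by rw [← Finset.sum_div, ← hs, div_self hpos.ne']) (fun ω k => v ω (e.symm k)) r
    refine ⟨fun i j => f i (e j), fun i h => hf0 i ?_, ?_⟩
    · funext k
      have := congrFun h (e.symm k)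
      simpa using this
    · have hdot : ∀ (i : Fin r) (ω : Ω), (fun j => f i (e j)) ⬝ᵥ v ω = f i ⬝ᵥ (fun k => v ω (e.symm k)) := by
        intro i ω
        unfold dotProduct
        rw [← Equiv.sum_comp e]
        refine Finset.sum_congr rfl (fun j _ => ?_)
        simp only [Equiv.symm_apply_apply]
      simp only [hdot]
      have h2 : ∑ ω, ∑ ω', μ ω * μ ω' * (if ∀ i, 0 < (f i ⬝ᵥ (fun k => v ω (e.symm k))) *
            (f i ⬝ᵥ (fun k => v ω' (e.symm k))) then (1 : ℝ) else 0) =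
          (∑ ω, ∑ ω', μ ω / s * (μ ω' / s) * (if ∀ i, 0 < (f i ⬝ᵥ (fun k => v ω (e.symm k))) *
            (f i ⬝ᵥ (fun k => v ω' (e.symm k))) then 1 else 0)) * s ^ 2 := by
        rw [Finset.sum_mul]
        refine Finset.sum_congr rfl (fun ω _ => ?_)
        rw [Finset.sum_mul]
        refine Finset.sum_congr rfl (fun ω' _ => ?_)
        field_simp
      rw [h2, hK]
      push_cast
      exact mul_le_mul_of_nonneg_right hf (sq_nonneg s)

/-- exponents: each at most `d` -/
def ex {N d : ℕ} (e : Fin N → Fin (d + 1)) : Fin N →₀ ℕ := Finsupp.equivFunOnFinite.symm (fun i => (e i : ℕ))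

theorem ex_inj {N d : ℕ} : Function.Injective (ex (N := N) (d := d)) := by
  intro e e' h
  funext i
  have := DFunLike.congr_fun h i
  exact Fin.ext this

/-- the polynomial with given coefficients -/
def pol {N d : ℕ} (f : (Fin N → Fin (d + 1)) → ℝ) : MvPolynomial (Fin N) ℝ := ∑ e, monomial (ex e) (f e)

theorem pol_coeff {N d : ℕ} (f : (Fin N → Fin (d + 1)) → ℝ) (e : Fin N → Fin (d + 1)) :
    coeff (ex e) (pol f) = f e := by
  unfold pol
  rw [coeff_sum, Finset.sum_eq_single e]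
  · rw [coeff_monomial, if_pos rfl]
  · intro e' _ hne
    rw [coeff_monomial, if_neg (fun h => hne (ex_inj h))]
  · intro h
    exact absurd (mem_univ e) h

theorem pol_ne {N d : ℕ} {f : (Fin N → Fin (d + 1)) → ℝ} (hf : f ≠ 0) : pol f ≠ 0 := by
  intro h
  apply hf
  funext e
  rw [← pol_coeff f e, h]
  simp

theorem pol_eval {N d : ℕ} (f : (Fin N → Fin (d + 1)) → ℝ) (p : Fin N → ℝ) :
    eval p (pol f) = f ⬝ᵥ (fun e => ∏ i, p i ^ (e i : ℕ)) := by
  unfold pol dotProduct
  rw [map_sum]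
  refine Finset.sum_congr rfl (fun e _ => ?_)
  rw [eval_monomial]
  congr 1
  rw [Finsupp.prod_fintype _ _ (fun i => pow_zero _)]
  rfl

theorem pol_deg {N d : ℕ} (f : (Fin N → Fin (d + 1)) → ℝ) : (pol f).totalDegree ≤ N * d := by
  unfold pol
  refine totalDegree_finsetSum_le (fun e _ => ?_)
  refine (totalDegree_monomial_le _ _).trans ?_
  rw [Finsupp.sum_fintype _ _ (fun i => rfl)]
  refine (Finset.sum_le_card_nsmul _ _ d (fun i _ => ?_)).trans (le_of_eq ?_)
  · have := (e i).2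
    show ((e i : ℕ)) ≤ d
    omega
  · rw [Finset.card_univ, Fintype.card_fin, smul_eq_mul]

open Classical in
/-- (SPLIT) for polynomials -/
theorem split_poly {Ω : Type} [Fintype Ω] {μ : Ω → ℝ} (hμ : ∀ ω, 0 ≤ μ ω) (N d r : ℕ) (p : Ω → Fin N → ℝ) :
    ∃ q : Fin r → MvPolynomial (Fin N) ℝ, (∀ i, q i ≠ 0 ∧ (q i).totalDegree ≤ N * d) ∧
      ∑ ω, ∑ ω', μ ω * μ ω' * (if ∀ i, 0 < eval (p ω) (q i) * eval (p ω') (q i) then 1 else 0) ≤
        (4 / ((d : ℝ) + 1) ^ N + (7 / 8) ^ r) * (∑ ω, μ ω) ^ 2 := by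
  obtain ⟨f, hf0, hf⟩ := split_idx hμ (fun ω (e : Fin N → Fin (d + 1)) => ∏ i, p ω i ^ (e i : ℕ)) r
  refine ⟨fun i => pol (f i), fun i => ⟨pol_ne (hf0 i), pol_deg _⟩, ?_⟩
  simp only [pol_eval]
  refine hf.trans (le_of_eq ?_)
  rw [Fintype.card_fun, Fintype.card_fin, Fintype.card_fin]
  push_cast
  rfl

/-- restriction to a line -/
theorem exists_line {N : ℕ} (q : MvPolynomial (Fin N) ℝ) (a x : Fin N → ℝ) :
    ∃ P : Polynomial ℝ, P.natDegree ≤ q.totalDegree ∧ ∀ t, P.eval t = eval (fun i => a i + t * x i) q := by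
  refine ⟨aeval (fun i => Polynomial.C (a i) + Polynomial.X * Polynomial.C (x i)) q, ?_, fun t => ?_⟩
  · have h := MvPolynomial.aeval_natDegree_le q le_rfl
      (fun i => Polynomial.C (a i) + Polynomial.X * Polynomial.C (x i)) (n := 1) (fun i => by
        refine (Polynomial.natDegree_add_le _ _).trans (max_le ?_ ?_)
        · rw [Polynomial.natDegree_C]; exact Nat.zero_le _
        · refine (Polynomial.natDegree_mul_le).trans ?_
          rw [Polynomial.natDegree_C, add_zero]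
          exact Polynomial.natDegree_X_le)
    rwa [mul_one] at h
  · rw [← Polynomial.coe_evalRingHom, ← AlgHom.coe_toRingHom, ← RingHom.comp_apply]
    have h : (Polynomial.evalRingHom t).comp ((aeval (fun i => Polynomial.C (a i) + Polynomial.X *
        Polynomial.C (x i)) : MvPolynomial (Fin N) ℝ →ₐ[ℝ] Polynomial ℝ) : MvPolynomial (Fin N) ℝ →+* Polynomial ℝ) =
        (eval (fun i => a i + t * x i) : MvPolynomial (Fin N) ℝ →+* ℝ) := by
      refine MvPolynomial.ringHom_ext (fun c => ?_) (fun i => ?_)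
      · simp
      · simp
        ring
    rw [h]

theorem sign_const {P : Polynomial ℝ} {t t' : ℝ} (h : t ≤ t') (hno : ∀ s, t ≤ s → s ≤ t' → P.eval s ≠ 0) :
    SignType.sign (P.eval t) = SignType.sign (P.eval t') := by
  have h1 := hno t le_rfl h
  have h2 := hno t' h le_rfl
  have hc : ContinuousOn (fun s => P.eval s) (Set.Icc t t') := P.continuous.continuousOn
  rcases lt_or_gt_of_ne h1 with ha | ha
  · rcases lt_or_gt_of_ne h2 with hb | hb
    · rw [sign_neg ha, sign_neg hb]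
    · obtain ⟨s, hs, hs0⟩ := intermediate_value_Icc h hc ⟨ha.le, hb.le⟩
      exact absurd hs0 (hno s hs.1 hs.2)
  · rcases lt_or_gt_of_ne h2 with hb | hb
    · obtain ⟨s, hs, hs0⟩ := intermediate_value_Icc' h hc ⟨hb.le, ha.le⟩
      exact absurd hs0 (hno s hs.1 hs.2)
    · rw [sign_pos ha, sign_pos hb]

end

end Pool.Agent.Helper89.PL
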