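import Mathlib

/-! Splitting by random functionals (polynomial partitioning without topology), part 1: the linear relation between
`K + 2` vectors of `ℝ ^ (K + 1)` in general position and functionals that vanish on `K` of them. -/

namespace Pool.Agent.Helper89.PL

open Finset

noncomputable section

/-- general position: `K + 1` vectors with different indices are linearly independent -/
def GenPos {T : Type} (K : ℕ) (u : T → Fin (K + 1) → ℝ) : Prop :=
  ∀ z : Fin (K + 1) → T, Function.Injective z → LinearIndependent ℝ (fun k => u (z k))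

/-- a nonzero functional that vanishes on `K` given vectors -/
theorem exists_fn {K : ℕ} (v : Fin K → Fin (K + 1) → ℝ) :
    ∃ f : Fin (K + 1) → ℝ, f ≠ 0 ∧ ∀ k, f ⬝ᵥ v k = 0 := by
  have h1 : ¬ LinearIndependent ℝ (fun j : Fin (K + 1) => fun k : Fin K => v k j) := by
    intro h
    have := h.fintype_card_le_finrank
    simp at this
  rw [Fintype.not_linearIndependent_iff] at h1
  obtain ⟨g, hg1, i, hi⟩ := h1
  refine ⟨g, fun h => hi (by rw [h]; rfl), fun k => ?_⟩
  have := congrFun hg1 k
  simpa [dotProduct, Finset.sum_apply] using this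

/-- the functional attached to `K` vectors -/
def fn {T : Type} {K : ℕ} (u : T → Fin (K + 1) → ℝ) (R : Fin K → T) : Fin (K + 1) → ℝ :=
  (exists_fn (fun k => u (R k))).choose

theorem fn_ne {T : Type} {K : ℕ} (u : T → Fin (K + 1) → ℝ) (R : Fin K → T) : fn u R ≠ 0 :=
  (exists_fn (fun k => u (R k))).choose_spec.1

theorem fn_zero {T : Type} {K : ℕ} (u : T → Fin (K + 1) → ℝ) (R : Fin K → T) (k : Fin K) :
    fn u R ⬝ᵥ u (R k) = 0 :=
  (exists_fn (fun k => u (R k))).choose_spec.2 k

/-- the tuple without the positions `i` and `i.succAbove j` -/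
def rest {T : Type} {K : ℕ} (z : Fin (K + 2) → T) (i : Fin (K + 2)) (j : Fin (K + 1)) : Fin K → T :=
  fun k => z (i.succAbove (j.succAbove k))

theorem exists_rel {T : Type} {K : ℕ} {u : T → Fin (K + 1) → ℝ} (hu : GenPos K u) (z : Fin (K + 2) → T)
    (hz : Function.Injective z) :
    ∃ c : Fin (K + 2) → ℝ, (∀ k, c k ≠ 0) ∧ ∀ (i : Fin (K + 2)) (j : Fin (K + 1)), 0 < c i * c (i.succAbove j) →
      (fn u (rest z i j) ⬝ᵥ u (z i)) * (fn u (rest z i j) ⬝ᵥ u (z (i.succAbove j))) ≤ 0 := by
  have h1 : ¬ LinearIndependent ℝ (fun k => u (z k)) := by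
    intro h
    have := h.fintype_card_le_finrank
    simp at this
  rw [Fintype.not_linearIndependent_iff] at h1
  obtain ⟨c, hc1, i0, hi0⟩ := h1
  refine ⟨c, ?_, ?_⟩
  · intro k hk
    have h2 : ∑ l : Fin (K + 1), c (k.succAbove l) • u (z (k.succAbove l)) = 0 := by
      rw [Fin.sum_univ_succAbove _ k, hk, zero_smul, zero_add] at hc1
      exact hc1
    have h3 := hu (fun l => z (k.succAbove l)) (hz.comp Fin.succAbove_right_injective)
    rw [Fintype.linearIndependent_iff] at h3
    have h4 := h3 (fun l => c (k.succAbove l)) h2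
    rcases eq_or_ne i0 k with h | h
    · exact hi0 (h ▸ hk)
    · obtain ⟨l, hl⟩ := Fin.exists_succAbove_eq h
      exact hi0 (hl ▸ h4 l)
  · intro i j hij
    set f := fn u (rest z i j) with hf
    have h2 : c i * (f ⬝ᵥ u (z i)) + c (i.succAbove j) * (f ⬝ᵥ u (z (i.succAbove j))) = 0 := by
      have h3 : f ⬝ᵥ (∑ k, c k • u (z k)) = 0 := by rw [hc1, dotProduct_zero]
      rw [Fin.sum_univ_succAbove _ i, Fin.sum_univ_succAbove _ j, dotProduct_add, dotProduct_add, dotProduct_smul,
        dotProduct_smul, dotProduct_sum] at h3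
      have h4 : ∑ k : Fin K, f ⬝ᵥ (c (i.succAbove (j.succAbove k)) • u (z (i.succAbove (j.succAbove k)))) = 0 := by
        refine Finset.sum_eq_zero (fun k _ => ?_)
        rw [dotProduct_smul]
        have := fn_zero u (rest z i j) k
        unfold rest at this
        rw [hf]
        unfold rest
        rw [this, smul_zero]
      rw [h4, add_zero] at h3
      simpa [smul_eq_mul] using h3
    set A := f ⬝ᵥ u (z i)
    set B := f ⬝ᵥ u (z (i.succAbove j))
    by_contra hcon
    push Not at hcon
    have h5 : 0 < (c i * c (i.succAbove j)) * (A * B) := mul_pos hij hcon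
    have h6 : (c i * c (i.succAbove j)) * (A * B) = -(c (i.succAbove j) * B) ^ 2 := by
      have : c i * A = -(c (i.succAbove j) * B) := by linarith
      calc (c i * c (i.succAbove j)) * (A * B) = (c i * A) * (c (i.succAbove j) * B) := by ring
        _ = _ := by rw [this]; ring
    nlinarith [sq_nonneg (c (i.succAbove j) * B)]

end

end Pool.Agent.Helper89.PL
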