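import Pool.Agent.Helper89.PL.Poly

/-! Polynomial partitioning without topology, part 6: the tree. -/

namespace Pool.Agent.Helper89.PL

open Finset MvPolynomial

noncomputable section

/-- sign vector of `r` polynomials at a point -/
def sg {N r : ℕ} (q : Fin r → MvPolynomial (Fin N) ℝ) (p : Fin N → ℝ) : Fin r → SignType :=
  fun i => SignType.sign (eval p (q i))

/-- node of depth `k` (list of the sign vectors, the last one first) of the tree `Q` at the point `p` -/
def node {N r : ℕ} (Q : List (Fin r → SignType) → Fin r → MvPolynomial (Fin N) ℝ) :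
    ℕ → (Fin N → ℝ) → List (Fin r → SignType)
  | 0, _ => []
  | k + 1, p => sg (Q (node Q k p)) p :: node Q k p

/-- none of the polynomials along the path of length `k` vanishes at `p` -/
def un {N r : ℕ} (Q : List (Fin r → SignType) → Fin r → MvPolynomial (Fin N) ℝ) (k : ℕ) (p : Fin N → ℝ) : Prop :=
  ∀ j < k, ∀ i, eval p (Q (node Q j p) i) ≠ 0

theorem node_length {N r : ℕ} (Q : List (Fin r → SignType) → Fin r → MvPolynomial (Fin N) ℝ) (k : ℕ)
    (p : Fin N → ℝ) : (node Q k p).length = k := by
  induction k with
  | zero => rfl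
  | succ k ih => rw [node, List.length_cons, ih]

theorem node_congr {N r : ℕ} {Q Q' : List (Fin r → SignType) → Fin r → MvPolynomial (Fin N) ℝ} {k : ℕ}
    (h : ∀ v, v.length < k → Q v = Q' v) {j : ℕ} (hj : j ≤ k) (p : Fin N → ℝ) : node Q j p = node Q' j p := by
  induction j with
  | zero => rfl
  | succ j ih =>
    have h1 := ih (by omega)
    rw [node, node, h1, h (node Q' j p) (by rw [node_length]; omega)]

theorem un_congr {N r : ℕ} {Q Q' : List (Fin r → SignType) → Fin r → MvPolynomial (Fin N) ℝ} {k : ℕ}
    (h : ∀ v, v.length < k → Q v = Q' v) (p : Fin N → ℝ) : un Q k p ↔ un Q' k p := by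
  unfold un
  refine forall_congr' (fun j => ?_)
  constructor
  · intro h1 hj i
    have := h1 hj i
    rwa [node_congr h hj.le p, h _ (by rw [node_length]; exact hj)] at this
  · intro h1 hj i
    have := h1 hj i
    rwa [← node_congr h hj.le p, ← h _ (by rw [node_length]; exact hj)] at this

/-- the node of smaller depth is determined by the node of larger depth -/
theorem node_prefix {N r : ℕ} {Q : List (Fin r → SignType) → Fin r → MvPolynomial (Fin N) ℝ} {j k : ℕ} (hjk : j ≤ k)
    {p p' : Fin N → ℝ} (h : node Q k p = node Q k p') : node Q j p = node Q j p' := by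
  induction k with
  | zero =>
    have : j = 0 := by omega
    subst this
    rfl
  | succ k ih =>
    rcases Nat.lt_or_ge j (k + 1) with h1 | h1
    · rw [node, node, List.cons.injEq] at h
      exact ih (by omega) h.2
    · have : j = k + 1 := by omega
      subst this
      exact h

theorem sum_swap {Ω β : Type} [Fintype Ω] (V : Finset β) (G : β → Ω → Ω → ℝ) :
    ∑ v ∈ V, ∑ ω, ∑ ω', G v ω ω' = ∑ ω, ∑ ω', ∑ v ∈ V, G v ω ω' := by
  rw [Finset.sum_comm]
  exact Finset.sum_congr rfl (fun ω _ => Finset.sum_comm)

open Classical in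
/-- (TREE) a tree of depth `L` whose sign cells have small collision mass -/
theorem exists_tree {Ω : Type} [Fintype Ω] {μ : Ω → ℝ} (hμ : ∀ ω, 0 ≤ μ ω) (N d r : ℕ) (p : Ω → Fin N → ℝ) (L : ℕ) :
    ∃ Q : List (Fin r → SignType) → Fin r → MvPolynomial (Fin N) ℝ,
      (∀ v i, Q v i ≠ 0 ∧ (Q v i).totalDegree ≤ N * d) ∧
      ∑ ω, ∑ ω', μ ω * μ ω' * (if un Q L (p ω) ∧ un Q L (p ω') ∧ node Q L (p ω) = node Q L (p ω') then 1 else 0) ≤
        (4 / ((d : ℝ) + 1) ^ N + (7 / 8) ^ r) ^ L * (∑ ω, μ ω) ^ 2 := by
  induction L with
  | zero =>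
    obtain ⟨q, hq, _⟩ := split_poly hμ N d r p
    refine ⟨fun _ => q, fun _ => hq, ?_⟩
    rw [pow_zero, one_mul, sq, Finset.sum_mul_sum]
    refine Finset.sum_le_sum (fun ω _ => Finset.sum_le_sum (fun ω' _ => ?_))
    have := mul_nonneg (hμ ω) (hμ ω')
    split_ifs
    · rw [mul_one]
    · rw [mul_zero]; exact this
  | succ L ih =>
    obtain ⟨Q, hQ, hQs⟩ := ih
    set κ : ℝ := 4 / ((d : ℝ) + 1) ^ N + (7 / 8) ^ r with hκ
    have hκ0 : 0 ≤ κ := by rw [hκ]; positivity
    -- conditional measures
    set μv : List (Fin r → SignType) → Ω → ℝ := fun v ω => if un Q L (p ω) ∧ node Q L (p ω) = v then μ ω else 0 with hμv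
    have hμv0 : ∀ v ω, 0 ≤ μv v ω := by
      intro v ω
      rw [hμv]
      simp only
      split_ifs
      · exact hμ ω
      · exact le_rfl
    choose q hq hqs using fun v => split_poly (hμv0 v) N d r p
    set Q' : List (Fin r → SignType) → Fin r → MvPolynomial (Fin N) ℝ := fun v => if v.length = L then q v else Q v
      with hQ'
    have hcong : ∀ v, v.length < L → Q' v = Q v := by
      intro v hv
      rw [hQ']
      simp only
      rw [if_neg (by omega)]
    refine ⟨Q', fun v i => ?_, ?_⟩
    · rw [hQ']
      simp only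
      split_ifs
      · exact hq v i
      · exact hQ v i
    · set V : Finset (List (Fin r → SignType)) := Finset.univ.image (fun ω => node Q L (p ω)) with hV
      have hmem : ∀ ω, node Q L (p ω) ∈ V := fun ω => Finset.mem_image_of_mem _ (mem_univ ω)
      -- the pairs of depth L + 1
      have h1 : ∑ ω, ∑ ω', μ ω * μ ω' * (if un Q' (L + 1) (p ω) ∧ un Q' (L + 1) (p ω') ∧
          node Q' (L + 1) (p ω) = node Q' (L + 1) (p ω') then (1 : ℝ) else 0) ≤
          ∑ v ∈ V, ∑ ω, ∑ ω', μv v ω * μv v ω' *
            (if ∀ i, 0 < eval (p ω) (q v i) * eval (p ω') (q v i) then 1 else 0) := by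
        rw [sum_swap V (fun v ω ω' => μv v ω * μv v ω' *
            (if ∀ i, 0 < eval (p ω) (q v i) * eval (p ω') (q v i) then 1 else 0))]
        refine Finset.sum_le_sum (fun ω _ => Finset.sum_le_sum (fun ω' _ => ?_))
        set v := node Q L (p ω') with hv
        have hnn : ∀ w ∈ V, 0 ≤ μv w ω * μv w ω' *
            (if ∀ i, 0 < eval (p ω) (q w i) * eval (p ω') (q w i) then (1 : ℝ) else 0) := fun w _ =>
          mul_nonneg (mul_nonneg (hμv0 w ω) (hμv0 w ω')) (by split_ifs <;> norm_num)
        refine le_trans ?_ (Finset.single_le_sum hnn (hmem ω'))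
        by_cases h2 : un Q' (L + 1) (p ω) ∧ un Q' (L + 1) (p ω') ∧ node Q' (L + 1) (p ω) = node Q' (L + 1) (p ω')
        · obtain ⟨h3, h4, h5⟩ := h2
          rw [if_pos ⟨h3, h4, h5⟩, mul_one]
          rw [node, node, List.cons.injEq] at h5
          obtain ⟨h6, h7⟩ := h5
          rw [node_congr hcong le_rfl, node_congr hcong le_rfl] at h7
          rw [node_congr hcong le_rfl, node_congr hcong le_rfl, h7] at h6
          have hQv : Q' v = q v := by
            rw [hQ']
            simp only
            rw [if_pos]
            rw [hv, node_length]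
          rw [← hv, hQv] at h6
          have h8 : un Q L (p ω) := by
            rw [← un_congr hcong]
            exact fun j hj => h3 j (by omega)
          have h9 : un Q L (p ω') := by
            rw [← un_congr hcong]
            exact fun j hj => h4 j (by omega)
          have e1 : μv v ω = μ ω := by
            rw [hμv]
            exact if_pos ⟨h8, h7⟩
          have e2 : μv v ω' = μ ω' := by
            rw [hμv]
            exact if_pos ⟨h9, rfl⟩
          rw [e1, e2, if_pos, mul_one]
          intro i
          have h10 := congrFun h6 i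
          have h11 := h3 L (by omega) i
          have h12 := h4 L (by omega) i
          rw [node_congr hcong le_rfl, h7, ← hv, hQv] at h11
          rw [node_congr hcong le_rfl, ← hv, hQv] at h12
          unfold sg at h10
          rcases lt_or_gt_of_ne h11 with ha | ha
          · rcases lt_or_gt_of_ne h12 with hb | hb
            · exact mul_pos_of_neg_of_neg ha hb
            · rw [sign_neg ha, sign_pos hb] at h10
              exact absurd h10 (by decide)
          · rcases lt_or_gt_of_ne h12 with hb | hb
            · rw [sign_pos ha, sign_neg hb] at h10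
              exact absurd h10 (by decide)
            · exact mul_pos ha hb
        · rw [if_neg h2, mul_zero]
          exact hnn v (hmem ω')
      have h2 : ∑ v ∈ V, (∑ ω, μv v ω) ^ 2 ≤
          ∑ ω, ∑ ω', μ ω * μ ω' * (if un Q L (p ω) ∧ un Q L (p ω') ∧ node Q L (p ω) = node Q L (p ω') then 1 else 0) := by
        simp only [sq, Finset.sum_mul_sum]
        rw [sum_swap V (fun v ω ω' => μv v ω * μv v ω')]
        refine Finset.sum_le_sum (fun ω _ => Finset.sum_le_sum (fun ω' _ => ?_))
        by_cases h3 : un Q L (p ω) ∧ un Q L (p ω') ∧ node Q L (p ω) = node Q L (p ω')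
        · rw [if_pos h3, mul_one]
          rw [Finset.sum_eq_single (node Q L (p ω'))]
          · refine mul_le_mul ?_ ?_ (hμv0 _ _) (hμ ω)
            · rw [hμv]
              simp only
              split_ifs
              · exact le_rfl
              · exact hμ ω
            · rw [hμv]
              simp only
              split_ifs
              · exact le_rfl
              · exact hμ ω'
          · intro w _ hw
            have : μv w ω' = 0 := by
              rw [hμv]
              exact if_neg (fun h => hw h.2.symm)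
            rw [this, mul_zero]
          · intro h
            exact absurd (hmem ω') h
        · rw [if_neg h3, mul_zero]
          refine le_of_eq (Finset.sum_eq_zero (fun w _ => ?_))
          by_cases h4 : un Q L (p ω) ∧ node Q L (p ω) = w
          · have : μv w ω' = 0 := by
              rw [hμv]
              refine if_neg (fun h => h3 ⟨h4.1, h.1, h4.2.trans h.2.symm⟩)
            rw [this, mul_zero]
          · have : μv w ω = 0 := by
              rw [hμv]
              exact if_neg h4
            rw [this, zero_mul]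
      calc _ ≤ ∑ v ∈ V, ∑ ω, ∑ ω', μv v ω * μv v ω' *
            (if ∀ i, 0 < eval (p ω) (q v i) * eval (p ω') (q v i) then 1 else 0) := h1
        _ ≤ ∑ v ∈ V, κ * (∑ ω, μv v ω) ^ 2 := Finset.sum_le_sum (fun v _ => hqs v)
        _ = κ * ∑ v ∈ V, (∑ ω, μv v ω) ^ 2 := by rw [Finset.mul_sum]
        _ ≤ κ * (κ ^ L * (∑ ω, μ ω) ^ 2) := mul_le_mul_of_nonneg_left (h2.trans hQs) hκ0
        _ = κ ^ (L + 1) * (∑ ω, μ ω) ^ 2 := by ring

/-- (BREAKS) the path of nodes changes at few points of a line -/
theorem exists_breaks {N r D : ℕ} {Q : List (Fin r → SignType) → Fin r → MvPolynomial (Fin N) ℝ}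
    (hQ : ∀ v i, (Q v i).totalDegree ≤ D) (a x : Fin N → ℝ) (k : ℕ) :
    ∃ S : Finset ℝ, S.card + 1 ≤ (r * D + 1) ^ k ∧ ∀ t t', t ≤ t' → (∀ s ∈ S, ¬ (t ≤ s ∧ s ≤ t')) →
      node Q k (fun i => a i + t * x i) = node Q k (fun i => a i + t' * x i) := by
  classical
  induction k with
  | zero => exact ⟨∅, by simp, fun t t' _ _ => rfl⟩
  | succ k ih =>
    obtain ⟨S, hS, hSn⟩ := ih
    set c : ℝ → ℕ := fun t => (S.filter (fun s => s < t)).card with hc
    have hcle : ∀ t, c t ≤ S.card := fun t => Finset.card_filter_le _ _
    choose P hPd hPe using fun (v : List (Fin r → SignType)) (i : Fin r) => exists_line (Q v i) a x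
    -- representatives
    set rep : ℕ → ℝ := fun j => if h : ∃ t, t ∉ S ∧ c t = j then h.choose else 0 with hrep
    set vj : ℕ → List (Fin r → SignType) := fun j => node Q k (fun i => a i + rep j * x i) with hvj
    set R : ℕ → Finset ℝ := fun j => Finset.univ.biUnion (fun i => (P (vj j) i).roots.toFinset) with hR
    have hRc : ∀ j, (R j).card ≤ r * D := by
      intro j
      refine Finset.card_biUnion_le.trans ?_
      refine (Finset.sum_le_card_nsmul _ _ D (fun i _ => ?_)).trans (le_of_eq ?_)
      · refine (Multiset.toFinset_card_le _).trans ((Polynomial.card_roots' _).trans ((hPd _ _).trans (hQ _ _)))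
      · rw [Finset.card_univ, Fintype.card_fin, smul_eq_mul]
    refine ⟨S ∪ (range (S.card + 1)).biUnion R, ?_, ?_⟩
    · have h1 : (S ∪ (range (S.card + 1)).biUnion R).card ≤ S.card + (S.card + 1) * (r * D) := by
        refine (Finset.card_union_le _ _).trans (Nat.add_le_add_left ?_ _)
        refine Finset.card_biUnion_le.trans ?_
        refine (Finset.sum_le_card_nsmul _ _ (r * D) (fun j _ => hRc j)).trans (le_of_eq ?_)
        rw [Finset.card_range, smul_eq_mul]
      have h2 : S.card + (S.card + 1) * (r * D) + 1 = (S.card + 1) * (r * D + 1) := by ring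
      calc (S ∪ (range (S.card + 1)).biUnion R).card + 1 ≤ S.card + (S.card + 1) * (r * D) + 1 :=
            Nat.add_le_add_right h1 1
        _ = (S.card + 1) * (r * D + 1) := h2
        _ ≤ (r * D + 1) ^ k * (r * D + 1) := Nat.mul_le_mul_right _ hS
        _ = (r * D + 1) ^ (k + 1) := (pow_succ _ _).symm
    · intro t t' htt hno
      have hnoS : ∀ s ∈ S, ¬ (t ≤ s ∧ s ≤ t') := fun s hs => hno s (Finset.mem_union_left _ hs)
      have htS : t ∉ S := fun h => hnoS t h ⟨le_rfl, htt⟩
      have hex : ∃ τ, τ ∉ S ∧ c τ = c t := ⟨t, htS, rfl⟩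
      have hτ : rep (c t) ∉ S ∧ c (rep (c t)) = c t := by
        rw [hrep]
        simp only
        rw [dif_pos hex]
        exact hex.choose_spec
      set τ := rep (c t) with hτd
      -- no element of `S` between `t` and `τ`
      have hbet : ∀ s ∈ S, ¬ (min t τ ≤ s ∧ s ≤ max t τ) := by
        intro s hs ⟨h1, h2⟩
        have hst : s ≠ t := fun h => htS (h ▸ hs)
        have hsτ : s ≠ τ := fun h => hτ.1 (h ▸ hs)
        rcases le_total t τ with h3 | h3
        · rw [min_eq_left h3] at h1
          rw [max_eq_right h3] at h2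
          have h4 : c t < c τ := by
            rw [hc]
            refine Finset.card_lt_card ⟨fun s' hs' => ?_, fun hsub => ?_⟩
            · rw [Finset.mem_filter] at hs' ⊢
              exact ⟨hs'.1, lt_of_lt_of_le hs'.2 h3⟩
            · have h5 := hsub (Finset.mem_filter.2 ⟨hs, lt_of_le_of_ne h2 hsτ⟩)
              exact absurd (Finset.mem_filter.1 h5).2 (not_lt.2 h1)
          exact absurd hτ.2 h4.ne'
        · rw [min_eq_right h3] at h1
          rw [max_eq_left h3] at h2
          have h4 : c τ < c t := by
            rw [hc]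
            refine Finset.card_lt_card ⟨fun s' hs' => ?_, fun hsub => ?_⟩
            · rw [Finset.mem_filter] at hs' ⊢
              exact ⟨hs'.1, lt_of_lt_of_le hs'.2 h3⟩
            · have h5 := hsub (Finset.mem_filter.2 ⟨hs, lt_of_le_of_ne h2 hst⟩)
              exact absurd (Finset.mem_filter.1 h5).2 (not_lt.2 h1)
          exact absurd hτ.2 h4.ne
      have hnτ : node Q k (fun i => a i + t * x i) = node Q k (fun i => a i + τ * x i) := by
        rcases le_total t τ with h3 | h3
        · rw [min_eq_left h3, max_eq_right h3] at hbet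
          exact hSn t τ h3 hbet
        · rw [min_eq_right h3, max_eq_left h3] at hbet
          exact (hSn τ t h3 hbet).symm
      have hnt' := hSn t t' htt hnoS
      rw [node, node, ← hnt', hnτ]
      congr 1
      funext i
      unfold sg
      rw [← hPe, ← hPe]
      by_cases hP0 : P (node Q k (fun i => a i + τ * x i)) i = 0
      · rw [hP0, Polynomial.eval_zero, Polynomial.eval_zero]
      · refine sign_const htt (fun s h1 h2 h0 => ?_)
        refine hno s (Finset.mem_union_right _ ?_) ⟨h1, h2⟩
        rw [Finset.mem_biUnion]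
        refine ⟨c t, Finset.mem_range.2 (Nat.lt_succ_of_le (hcle t)), ?_⟩
        rw [hR]
        simp only
        rw [Finset.mem_biUnion]
        refine ⟨i, mem_univ i, ?_⟩
        rw [Multiset.mem_toFinset, Polynomial.mem_roots hP0]
        exact h0

end

end Pool.Agent.Helper89.PL
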